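import Pool.Agent.Lib.GBC.P.Ord

/-!
Module P.Cen of GBC. The centre of a place on a Dedekind domain `R` with field of fractions `K`.

PROOFS. `mem_cen`: `toRing R w hw a` is in the maximal ideal iff its valuation is less than `1`.
`cen_ne_bot`: otherwise all nonzero elements of `R` are units of `w.ring` and `K = Frac R` is
contained in `w.ring`; but `w.ring` is a discrete valuation ring, not a field. It is prime (kernel of
a homomorphism to a field), so maximal.
`mem_ring_iff_frac`: Let `P = cen`. `⊇`: `s` is a unit of `w.ring`. `⊆`: let `x = a / s ∈ w.ring` with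
`a, s ∈ R`, `x ≠ 0`. The localization `R_P` is a discrete valuation ring
(`IsLocalization.AtPrime.isDiscreteValuationRing_of_dedekind_domain`); or: choose `π ∈ P`, `π ∉ P ^ 2`;
every nonzero `a ∈ R` can be written `a u = π ^ n v` with `u, v ∈ R`, `u, v ∉ P`
(`n` the multiplicity of `P` in `(a)`: there are `u ∉ P` with `u P ^ n ≤ (π ^ n)`: write
`(π) = P J` with `J` not contained in `P` and choose `u ∈ J ^ n`, `u ∉ P`; then `a u ∈ P ^ n J ^ n = (π ^ n)`,
`a u = π ^ n v`, and `v ∉ P` as otherwise `P ^ (n + 1)` divides `(a) (u)`). So `x = π ^ n u / v` with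
`n : ℤ`, and `n ≥ 0` as `x ∈ w.ring`, `w.ring.valuation π < 1`.
`toRes_surjective`: for `x = a / s` choose `s' ∈ R` with `s s' = 1` modulo `P`: `x` and `a s'` have the
same residue class. `cen_injective`: from `mem_ring_iff_frac`, `w.ring = w'.ring` (`Place.ext'` in
`BSDFF/Places.lean` for general `K`). `exists_place`: `w.ring = (v.valuation K).valuationSubring` for
the height one prime `v` (see `placeOf` in `Lib/MP_48b749_nt/Places.lean`, where this is done for
`k[X]`), it contains `k`. `cen_top`: `ord_mem_pow`: with `u`, `π`, `v` as above `a ∈ P ^ m ↔ m ≤ n`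
and `ord w a = n * ord w π`, `ord w π = 1`: the maximal ideal of `w.ring` is generated by `π` by
`mem_ring_iff_frac`.
`degree_eq`: `R / P ≃ ResidueField w.ring` as `k`-spaces; `Place.degree` is the dimension for the
algebra structure `constMap`.
-/

set_option autoImplicit false

open Polynomial

namespace Pool.Agent.GBC

open Pool.Agent.BSDP Pool.Agent.BSDFF Pool.Agent.HYP

variable {k K : Type} [Field k] [Field K] [Algebra k K] (R : Subalgebra k K)
  [IsDedekindDomain R] [IsFractionRing R K]

private theorem Cen_coe {w : Place k K} (hw : Over R w) (a : R) :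
    ((toRing R w hw a : w.ring) : K) = (a : K) := rfl

theorem mem_cen {w : Place k K} (hw : Over R w) (a : R) :
    a ∈ cen R w hw ↔ w.ring.valuation (a : K) < 1 := by
  unfold cen
  rw [RingHom.mem_ker, toRes, RingHom.comp_apply, IsLocalRing.residue_eq_zero_iff,
    ValuationSubring.valuation_lt_one_iff, Cen_coe]

private theorem Cen_le_one {w : Place k K} (hw : Over R w) (a : R) :
    w.ring.valuation (a : K) ≤ 1 :=
  (w.ring.valuation_le_one_iff _).2 (hw a a.2)

private theorem Cen_eq_one {w : Place k K} (hw : Over R w) {a : R} (ha : a ∉ cen R w hw) :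
    w.ring.valuation (a : K) = 1 := by
  rw [mem_cen, not_lt] at ha
  exact le_antisymm (Cen_le_one R hw a) ha

private theorem Cen_exists_frac (x : K) : ∃ a s : R, s ≠ 0 ∧ x = (a : K) / s := by
  obtain ⟨a, s, hs, h⟩ := IsFractionRing.div_surjective (A := R) x
  exact ⟨a, s, nonZeroDivisors.ne_zero hs, h.symm⟩

theorem cen_ne_bot {w : Place k K} (hw : Over R w) : cen R w hw ≠ ⊥ := by
  intro h
  have h1 : ∀ a : R, a ≠ 0 → w.ring.valuation (a : K) = 1 := by
    intro a ha
    apply Cen_eq_one R hw
    rw [h, Ideal.mem_bot]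
    exact ha
  obtain ⟨a, s, hs, hx⟩ := Cen_exists_frac R (unif w : K)
  have hu : (unif w : K) ≠ 0 := by
    intro h2
    exact (unif_irreducible w).ne_zero (Subtype.ext h2)
  have ha : a ≠ 0 := by
    rintro rfl
    apply hu
    rw [hx]
    simp
  have h2 : w.ring.valuation (unif w : K) = 1 := by
    rw [hx, map_div₀, h1 a ha, h1 s hs, div_one]
  have h3 := (val_lt_one_iff w hu).2 (by rw [ord_unif])
  rw [h2] at h3
  exact lt_irrefl _ h3

theorem cen_isMaximal {w : Place k K} (hw : Over R w) : (cen R w hw).IsMaximal := by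
  have h : (cen R w hw).IsPrime := RingHom.ker_isPrime _
  exact h.isMaximal (cen_ne_bot R hw)

/-- the height one prime of a place -/
private noncomputable def Cen_spec {w : Place k K} (hw : Over R w) :
    IsDedekindDomain.HeightOneSpectrum R where
  asIdeal := cen R w hw
  isPrime := (cen_isMaximal R hw).isPrime
  ne_bot := cen_ne_bot R hw

private theorem Cen_ring_eq {w : Place k K} (hw : Over R w) :
    ((Cen_spec R hw).valuation K).valuationSubring = w.ring := by
  have htop : w.ring ≠ ⊤ := by
    intro h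
    have hu : (unif w : K) ≠ 0 := by
      intro h2
      exact (unif_irreducible w).ne_zero (Subtype.ext h2)
    have h0 : ∀ x : K, x ∈ w.ring := by
      intro x
      rw [h]
      exact ValuationSubring.mem_top _
    have h1 := h0 ((unif w : K))⁻¹
    rw [mem_ring_iff w (inv_ne_zero hu), ord_inv w hu, ord_unif] at h1
    omega
  rw [← IsDedekindDomain.HeightOneSpectrum.valuationSubringAtPrime_eq_valuationSubring]
  apply ValuationSubring.eq_of_le_of_ne_top _ _ htop
  rintro x ⟨a, s, hs, rfl⟩
  have h1 : w.ring.valuation (algebraMap R K s) = 1 := Cen_eq_one R hw hs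
  rw [← w.ring.valuation_le_one_iff, map_mul, map_inv₀, h1, inv_one, mul_one]
  exact Cen_le_one R hw a

private theorem Cen_equiv {w : Place k K} (hw : Over R w) :
    ((Cen_spec R hw).valuation K).IsEquiv w.ring.valuation := by
  rw [Valuation.isEquiv_iff_val_le_one]
  intro x
  rw [ValuationSubring.valuation_le_one_iff, ← Cen_ring_eq R hw,
    Valuation.mem_valuationSubring_iff]

theorem mem_ring_iff_frac {w : Place k K} (hw : Over R w) (x : K) :
    x ∈ w.ring ↔ ∃ a s : R, s ∉ cen R w hw ∧ x = (a : K) / s := by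
  constructor
  · intro h
    rw [← Cen_ring_eq R hw, Valuation.mem_valuationSubring_iff] at h
    obtain ⟨n, d, hnd⟩ := (Cen_spec R hw).exists_primeCompl_mul_eq_of_integer x h
    have hd : (d : R) ∉ cen R w hw := d.2
    refine ⟨n, d, hd, ?_⟩
    have h1 : algebraMap R K (d : R) ≠ 0 := by
      intro h2
      apply hd
      rw [(FaithfulSMul.algebraMap_injective R K) (h2.trans (map_zero _).symm)]
      exact zero_mem _
    exact eq_div_of_mul_eq h1 hnd
  · rintro ⟨a, s, hs, rfl⟩
    rw [← w.ring.valuation_le_one_iff, map_div₀, Cen_eq_one R hw hs, div_one]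
    exact Cen_le_one R hw a

omit [IsDedekindDomain R] [IsFractionRing R K] in
private theorem Cen_res_eq {w : Place k K} (hw : Over R w) {a : R} {y : w.ring}
    (h : w.ring.valuation ((a : K) - y) < 1) :
    toRes R w hw a = IsLocalRing.residue w.ring y := by
  rw [toRes, RingHom.comp_apply, ← sub_eq_zero, ← map_sub, IsLocalRing.residue_eq_zero_iff,
    ValuationSubring.valuation_lt_one_iff]
  exact h

theorem toRes_surjective {w : Place k K} (hw : Over R w) :
    Function.Surjective (toRes R w hw) := by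
  intro y
  obtain ⟨x, rfl⟩ := IsLocalRing.residue_surjective y
  obtain ⟨a, s, hs, hx⟩ := (mem_ring_iff_frac R hw (x : K)).1 x.2
  have hm := cen_isMaximal R hw
  obtain ⟨s', hs'⟩ := hm.exists_inv hs
  obtain ⟨i, hi, hsi⟩ := hs'
  refine ⟨a * s', Cen_res_eq R hw ?_⟩
  have hs0 : (s : K) ≠ 0 := by
    intro h2
    apply hs
    have : s = 0 := Subtype.ext h2
    rw [this]
    exact zero_mem _
  have h1 : ((a * s' : R) : K) - (x : K) = -((a : K) / s) * (i : K) := by
    have h2 : (s' : K) * s + i = 1 := by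
      have := congrArg (fun z : R => (z : K)) hsi
      simpa using this
    rw [hx]
    push_cast
    have h3 : (i : K) = 1 - s' * s := by rw [← h2]; ring
    rw [h3]
    field_simp
    ring
  rw [h1, map_mul, Valuation.map_neg, map_div₀, Cen_eq_one R hw hs, div_one]
  have h4 := (mem_cen R hw i).1 hi
  exact lt_of_le_of_lt (mul_le_of_le_one_left' (Cen_le_one R hw a)) h4

theorem cen_injective {w w' : Place k K} (hw : Over R w) (hw' : Over R w')
    (h : cen R w hw = cen R w' hw') : w = w' := by
  apply Place.ext'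
  ext x
  rw [mem_ring_iff_frac R hw, mem_ring_iff_frac R hw', h]

theorem exists_place (P : Ideal R) (hP : P.IsMaximal) (h0 : P ≠ ⊥) :
    ∃ (w : Place k K) (hw : Over R w), cen R w hw = P := by
  obtain ⟨v, hv⟩ : ∃ v : IsDedekindDomain.HeightOneSpectrum R, v.asIdeal = P :=
    ⟨⟨P, hP.isPrime, h0⟩, rfl⟩
  have hle : ∀ a : R, v.valuation K (a : K) ≤ 1 := fun a =>
    IsDedekindDomain.HeightOneSpectrum.valuation_le_one v a
  let w : Place k K :=
    { ring := (v.valuation K).valuationSubring
      const_mem := fun c => (Valuation.mem_valuationSubring_iff _ _).2 (hle (algebraMap k R c))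
      dvr := inferInstance }
  have hw : Over R w := fun a ha => (Valuation.mem_valuationSubring_iff _ _).2 (hle ⟨a, ha⟩)
  refine ⟨w, hw, ?_⟩
  ext a
  rw [mem_cen, ← hv, ← v.valuation_lt_one_iff_mem (K := K)]
  exact ((v.valuation K).isEquiv_valuation_valuationSubring.lt_one_iff_lt_one).symm

private theorem Cen_unif {w : Place k K} (hw : Over R w) : ∃ a : R, a ≠ 0 ∧ ord w (a : K) = 1 ∧
    (Cen_spec R hw).valuation K (a : K) = WithZero.exp (-1 : ℤ) := by
  obtain ⟨π, hπ⟩ := (Cen_spec R hw).intValuation_exists_uniformizer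
  have hv : (Cen_spec R hw).valuation K (π : K) = WithZero.exp (-1 : ℤ) := by
    rw [← hπ]
    exact (Cen_spec R hw).valuation_of_algebraMap π
  have hπ0 : π ≠ 0 := by
    rintro rfl
    rw [map_zero] at hπ
    exact WithZero.exp_ne_zero hπ.symm
  have hπK : (π : K) ≠ 0 := fun h => hπ0 (Subtype.ext h)
  have hu : (unif w : K) ≠ 0 := by
    intro h2
    exact (unif_irreducible w).ne_zero (Subtype.ext h2)
  have he := Cen_equiv R hw
  refine ⟨π, hπ0, le_antisymm ?_ ?_, hv⟩
  · rw [← ord_unif w, ← val_le_iff w hu hπK, ← he.le_iff_le, hv]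
    have h1 : (Cen_spec R hw).valuation K (unif w : K) < 1 := by
      rw [he.lt_one_iff_lt_one, val_lt_one_iff w hu, ord_unif]
    have h2 : (Cen_spec R hw).valuation K (unif w : K) ≠ 0 := (Valuation.ne_zero_iff _).2 hu
    obtain ⟨n, hn⟩ : ∃ n : ℤ, WithZero.exp n = (Cen_spec R hw).valuation K (unif w : K) :=
      ⟨WithZero.log _, WithZero.exp_log h2⟩
    rw [← hn, ← WithZero.exp_zero, WithZero.exp_lt_exp] at h1
    rw [← hn, WithZero.exp_le_exp]
    omega
  · rw [← val_lt_one_iff w hπK, ← he.lt_one_iff_lt_one, hv, ← WithZero.exp_zero,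
      WithZero.exp_lt_exp]
    omega

theorem mem_cen_pow {w : Place k K} (hw : Over R w) (n : ℕ) (a : R) :
    a ∈ cen R w hw ^ n ↔ a = 0 ∨ (n : ℤ) ≤ ord w (a : K) := by
  by_cases ha : a = 0
  · simp [ha]
  have haK : (a : K) ≠ 0 := fun h => ha (Subtype.ext h)
  obtain ⟨π, hπ0, hπ1, hv⟩ := Cen_unif R hw
  have hπK : (π : K) ≠ 0 := fun h => hπ0 (Subtype.ext h)
  have h1 : a ∈ cen R w hw ^ n ↔ (Cen_spec R hw).valuation K (a : K) ≤
      (Cen_spec R hw).valuation K ((π : K) ^ n) := by
    rw [map_pow, hv, ← WithZero.exp_nsmul]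
    have h2 : (Cen_spec R hw).valuation K (a : K) = (Cen_spec R hw).intValuation a :=
      (Cen_spec R hw).valuation_of_algebraMap a
    rw [h2]
    have h3 : (n • (-1 : ℤ)) = -(n : ℤ) := by simp
    rw [h3]
    exact ((Cen_spec R hw).intValuation_le_pow_iff_mem a n).symm
  rw [h1, (Cen_equiv R hw).le_iff_le, val_le_iff w haK (pow_ne_zero _ hπK), ord_pow w hπK, hπ1,
    mul_one]
  simp [ha]

theorem exists_ord_one {w : Place k K} (hw : Over R w) : ∃ a : R, a ≠ 0 ∧ ord w (a : K) = 1 := by
  obtain ⟨π, hπ0, hπ1, -⟩ := Cen_unif R hw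
  exact ⟨π, hπ0, hπ1⟩

theorem degree_eq {w : Place k K} (hw : Over R w) :
    w.degree = Module.finrank k (R ⧸ cen R w hw) := by
  unfold Place.degree
  let _ := w.constMap.toAlgebra
  let e' : (R ⧸ cen R w hw) ≃ₐ[k] IsLocalRing.ResidueField w.ring :=
    AlgEquiv.ofRingEquiv (f := RingHom.quotientKerEquivOfSurjective (toRes_surjective R hw))
      (fun c => rfl)
  exact e'.toLinearEquiv.finrank_eq.symm

end Pool.Agent.GBC
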