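import Pool.Agent.Lib.GBC.Q.Deg
import Pool.Agent.Lib.GBC.P.Cen

/-!
Module P.Pl of GBC. The finite places and the maximal ideals of `A`.

PROOFS. `G.prime w = cen G.A w.1 w.2` and `G.res w = toRes G.A w.1 w.2` by definition (`rfl` or
`RingHom.ext fun _ => rfl`); so `res_surj`, `prime_max`, `prime_ne`, `mem_prime`, `degI_prime` are
`toRes_surjective`, `cen_isMaximal`, `cen_ne_bot`, `mem_cen`, `degree_eq` of P.Cen (`R = G.A`, with the
instances `G.dedA`, `G.fracA`); `prime_inj` is `cen_injective` (and `Subtype.ext`); `prime_surj`: a maximal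
ideal `P` of `A` is not `⊥` as `A` is not a field (`t ∈ A`, `t ≠ 0`, `t⁻¹ ∉ A`: `inv_not_mem`), then
`exists_place`. `fin_κ`, `card_κ`: `κ (w)` is the quotient `A / prime w` (`res_surj`, quotient by the
kernel), finite dimensional over `k` (`fin_quotI`), of dimension `degI (prime w) = degree`; number of
elements of a finite dimensional space: `Module.card_eq_pow_finrank` / `Module.natCard_eq_pow_finrank`.
`finite_deg`, `count_deg`: let `q = #k` and `S` a finite set of finite places of degree `e`. If `e = 0`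
there is no such place (`κ (w)` has at least two elements, `card_κ`). Let `e ≥ 1` and
`a = t ^ (q ^ e) - t ∈ A`. `κ (w)` is a field with `q ^ e` elements, so `x ^ (q ^ e) = x` there
(`FiniteField.pow_card`), so `a ∈ prime w` for `w ∈ S`. `a ≠ 0`: otherwise `t ^ (q ^ e - 1) = 1` and
`t⁻¹ = t ^ (q ^ e - 2) ∈ A` (if `q ^ e = 2` then `t = 1`, `t⁻¹ = 1 ∈ A`), excluded by `inv_not_mem`. And
`a ∈ M (q ^ e)`. The prime ideals `prime w`, `w ∈ S`, are different maximal ideals, so `a` is in their
product (`Ideal.prod_le_inf`, `Ideal.inf_eq_prod_of_coprime`-like, or divisibility by distinct primes: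
`Finset.prod_primes_dvd`), so
`∑ degI (prime w) = degI (∏ prime w) ≤ degI (a) ≤ d q ^ e` (`degI_prod`, `degI_le`, `degI_span_le`).
So `e * S.card ≤ d q ^ e`; this holds for all finite subsets `S` of the set, so it is finite
(`Set.infinite`/`Set.Infinite.exists_subset_card_eq`).
-/

set_option autoImplicit false

open Polynomial

namespace Pool.Agent.GBC.Geo

open Pool.Agent.BSDP Pool.Agent.BSDFF Pool.Agent.HYP

variable {k K : Type} [Field k] [Field K] [Algebra k K] (G : Geo k K)

theorem res_surj (w : G.FP) : Function.Surjective (G.res w) := toRes_surjective G.A w.2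

theorem prime_max (w : G.FP) : (G.prime w).IsMaximal := cen_isMaximal G.A w.2

theorem prime_ne (w : G.FP) : G.prime w ≠ ⊥ := cen_ne_bot G.A w.2

theorem prime_inj {w w' : G.FP} (h : G.prime w = G.prime w') : w = w' :=
  Subtype.ext (cen_injective G.A w.2 w'.2 h)

theorem prime_surj (P : Ideal G.A) (hP : P.IsMaximal) : ∃ w, G.prime w = P := by
  have h0 : P ≠ ⊥ := by
    rintro rfl
    have ht : (⟨G.t, G.t_mem⟩ : G.A) ∉ (⊥ : Ideal G.A) := by
      rw [Ideal.mem_bot]
      intro h
      exact G.t_ne (congrArg Subtype.val h)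
    obtain ⟨y, i, hi, hy⟩ := hP.exists_inv ht
    rw [Ideal.mem_bot] at hi
    rw [hi, add_zero] at hy
    have h1 : (y : K) * G.t = 1 := congrArg Subtype.val hy
    apply G.inv_not_mem
    rw [← eq_inv_of_mul_eq_one_left h1]
    exact y.2
  obtain ⟨w, hw, h⟩ := exists_place G.A P hP h0
  exact ⟨⟨w, hw⟩, h⟩

theorem mem_prime (w : G.FP) (a : G.A) : a ∈ G.prime w ↔ w.1.ring.valuation (a : K) < 1 :=
  mem_cen G.A w.2 a

theorem degI_prime (w : G.FP) : G.degI (G.prime w) = w.1.degree := (degree_eq G.A w.2).symm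

private theorem pl_fin [Finite k] (w : G.FP) : Finite (G.A ⧸ G.prime w) := by
  have := G.fin_quotI (G.prime w) (G.prime_ne w)
  exact Module.finite_of_finite k

private theorem pl_card (w : G.FP) : Nat.card (G.κ w) = Nat.card (G.A ⧸ G.prime w) :=
  (Nat.card_congr (RingHom.quotientKerEquivOfSurjective (G.res_surj w)).toEquiv).symm

theorem fin_κ [Finite k] (w : G.FP) : Finite (G.κ w) := by
  have : Finite (G.A ⧸ RingHom.ker (G.res w)) := pl_fin G w
  exact Finite.of_equiv _ (RingHom.quotientKerEquivOfSurjective (G.res_surj w)).toEquiv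

theorem card_κ [Finite k] (w : G.FP) : Nat.card (G.κ w) = Nat.card k ^ w.1.degree := by
  have := G.fin_quotI (G.prime w) (G.prime_ne w)
  rw [pl_card, ← G.degI_prime w]
  exact Module.natCard_eq_pow_finrank

private theorem pl_bound [Finite k] {e : ℕ} (he : 1 ≤ e) (S : Finset G.FP)
    (hS : ∀ w ∈ S, w.1.degree = e) : e * S.card ≤ G.d * Nat.card k ^ e := by
  classical
  have hq : 2 ≤ Nat.card k := by
    have : 1 < Nat.card k := Finite.one_lt_card
    omega
  have hqe : 2 ≤ Nat.card k ^ e := hq.trans (Nat.le_self_pow (by omega) _)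
  let t' : G.A := ⟨G.t, G.t_mem⟩
  let a : G.A := t' ^ (Nat.card k ^ e) - t'
  have hmem : ∀ w ∈ S, a ∈ G.prime w := by
    intro w hw
    have hf := G.fin_κ w
    let _ : Fintype (G.κ w) := Fintype.ofFinite _
    have hc : Fintype.card (G.κ w) = Nat.card k ^ e := by
      rw [← Nat.card_eq_fintype_card, G.card_κ w, hS w hw]
    change G.res w a = 0
    rw [map_sub, map_pow, ← hc, FiniteField.pow_card, sub_self]
  have ha0 : a ≠ 0 := by
    intro h
    have h1 : (G.t : K) ^ (Nat.card k ^ e) = G.t := by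
      have h2 : t' ^ (Nat.card k ^ e) = t' := sub_eq_zero.1 h
      exact congrArg Subtype.val h2
    have h2 : G.t ^ (Nat.card k ^ e - 2) * G.t = 1 := by
      have h3 : G.t * (G.t ^ (Nat.card k ^ e - 2) * G.t) = G.t * 1 := by
        rw [mul_one, ← pow_succ, ← pow_succ']
        have h4 : Nat.card k ^ e - 2 + 1 + 1 = Nat.card k ^ e := by omega
        rw [h4, h1]
      exact mul_left_cancel₀ G.t_ne h3
    apply G.inv_not_mem
    rw [← eq_inv_of_mul_eq_one_left h2]
    exact pow_mem G.t_mem _
  have haM : (a : K) ∈ G.M ((Nat.card k ^ e : ℕ) : ℤ) := by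
    have h1 : (G.t ^ (Nat.card k ^ e) : K) ∈ G.M ((Nat.card k ^ e : ℕ) : ℤ) := by
      rw [← zpow_natCast]
      exact G.zpow_mem_M _
    have h2 : (G.t : K) ∈ G.M ((Nat.card k ^ e : ℕ) : ℤ) := by
      have h3 := G.zpow_mem_M 1
      rw [zpow_one] at h3
      exact G.M_mono (by omega) h3
    exact (G.M _).sub_mem h1 h2
  have hdvd : ∏ P ∈ S.image G.prime, P ∣ Ideal.span {a} := by
    apply Finset.prod_primes_dvd
    · intro P hP
      obtain ⟨w, -, rfl⟩ := Finset.mem_image.1 hP
      exact Ideal.prime_of_isPrime (G.prime_ne w) (G.prime_max w).isPrime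
    · intro P hP
      obtain ⟨w, hw, rfl⟩ := Finset.mem_image.1 hP
      rw [Ideal.dvd_span_singleton]
      exact hmem w hw
  rw [Finset.prod_image fun w _ w' _ h => G.prime_inj h] at hdvd
  have hsne : Ideal.span {a} ≠ ⊥ := by
    rw [Ne, Ideal.span_singleton_eq_bot]
    exact ha0
  have h1 := G.degI_le hsne (Ideal.dvd_iff_le.1 hdvd)
  rw [G.degI_prod S G.prime fun w _ => G.prime_ne w,
    Finset.sum_congr rfl fun w hw => (G.degI_prime w).trans (hS w hw), Finset.sum_const,
    smul_eq_mul] at h1
  have h2 := G.degI_span_le ha0 haM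
  have h3 : G.degI (Ideal.span {a}) ≤ G.d * Nat.card k ^ e := by exact_mod_cast h2
  calc e * S.card = S.card * e := mul_comm _ _
    _ ≤ _ := h1.trans h3

theorem finite_deg [Finite k] (e : ℕ) : {w : G.FP | w.1.degree = e}.Finite := by
  rcases Nat.eq_zero_or_pos e with rfl | he
  · have h : {w : G.FP | w.1.degree = 0} = ∅ := by
      rw [Set.eq_empty_iff_forall_notMem]
      intro w hw
      have h1 := G.card_κ w
      have h2 : w.1.degree = 0 := hw
      rw [h2, pow_zero] at h1
      have := G.fin_κ w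
      have h3 : 1 < Nat.card (G.κ w) := Finite.one_lt_card
      omega
    rw [h]
    exact Set.finite_empty
  · by_contra h
    obtain ⟨S, hS, hc⟩ := Set.Infinite.exists_subset_card_eq h (G.d * Nat.card k ^ e + 1)
    have h1 := pl_bound G he S fun w hw => hS hw
    rw [hc] at h1
    nlinarith

theorem count_deg [Finite k] (e : ℕ) :
    e * {w : G.FP | w.1.degree = e}.ncard ≤ G.d * Nat.card k ^ e := by
  rcases Nat.eq_zero_or_pos e with rfl | he
  · rw [zero_mul]
    exact Nat.zero_le _
  · have hf := G.finite_deg (k := k) e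
    rw [Set.ncard_eq_toFinset_card _ hf]
    exact pl_bound G he _ fun w hw => hf.mem_toFinset.1 hw

end Pool.Agent.GBC.Geo
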