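import Pool.Agent.Lib.GBC.PDef
import Pool.Agent.Lib.BSDP.D.Ord

/-!
Module P.Ord of GBC. The order at a place.

PROOFS. `exists_zpow`: `w.dvr`: a nonzero element of `w.ring` is a unit times a power of the
irreducible `unif w` (`IsDiscreteValuationRing.eq_unit_mul_pow_irreducible`), an element of `K` is a
quotient of two elements of `w.ring` (see `comp_value` in `BSDP/D/Comp.lean`). The powers of
`w.ring.valuation (unif w) < 1` are distinct (`zpow_right_strictAnti₀`). The rest as in
`BSDP/D/Ord.lean` (the same for `Loc`). `ord_const`: a nonzero constant and its inverse are in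
`w.ring`. `irreducible_iff`: `Irreducible ϖ` iff `ϖ` generates the maximal ideal iff `ϖ` and
`unif w` are associated (`IsDiscreteValuationRing.associated_of_irreducible`) iff the order is `1`
(a unit times an irreducible element is irreducible). `poleLE_iff`: for all irreducible `ϖ`
`ord (a ϖ ^ n) = ord a + n`. `ord_loc`: `L.ord` is `BSDP.Loc.ord`; `L.pi` is `w.toCompletion ϖ`
up to a unit: by `L.dense` there is `a ∈ K` with `V (L.pi - a) < V L.pi`, so `V a = V L.pi`, the
largest value `< 1`; use `L.lt_iff`, `L.mem_iff`: `V (w.toCompletion x) = 1 ↔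
w.ring.valuation x = 1`, so `V (toCompletion (unif w)) = V L.pi` and write `x = ϖ ^ n u`.
-/

set_option autoImplicit false

open Polynomial

namespace Pool.Agent.GBC

open Pool.Agent.BSDP Pool.Agent.BSDFF Pool.Agent.HYP

variable {k K : Type} [Field k] [Field K] [Algebra k K] (w : Place k K)

theorem unif_irreducible : Irreducible (unif w) :=
  (IsDiscreteValuationRing.exists_irreducible w.ring).choose_spec

private theorem P_Ord_unif_ne : (unif w : K) ≠ 0 := fun h =>
  (unif_irreducible w).ne_zero (Subtype.ext h)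

private theorem P_Ord_vunif_ne : w.ring.valuation (unif w : K) ≠ 0 :=
  (Valuation.ne_zero_iff _).2 (P_Ord_unif_ne w)

private theorem P_Ord_vunif_lt : w.ring.valuation (unif w : K) < 1 :=
  (w.ring.valuation_lt_one_iff _).mp
    ((IsLocalRing.mem_maximalIdeal _).mpr (unif_irreducible w).not_isUnit)

private theorem P_Ord_anti : StrictAnti (fun n : ℤ => w.ring.valuation (unif w : K) ^ n) :=
  zpow_right_strictAnti₀ (zero_lt_iff.2 (P_Ord_vunif_ne w)) (P_Ord_vunif_lt w)

private theorem P_Ord_exists_zpow {x : K} (hx : x ≠ 0) :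
    ∃ n : ℤ, w.ring.valuation x = w.ring.valuation (unif w : K) ^ n := by
  have h1 : ∀ p : w.ring, p ≠ 0 → ∃ n : ℕ,
      w.ring.valuation (p : K) = w.ring.valuation (unif w : K) ^ n := by
    intro p hp
    obtain ⟨n, u, hu⟩ :=
      IsDiscreteValuationRing.eq_unit_mul_pow_irreducible hp (unif_irreducible w)
    refine ⟨n, ?_⟩
    have h2 : (p : K) = ((u : w.ring) : K) * (unif w : K) ^ n := by
      rw [hu]
      rfl
    rw [h2, map_mul, map_pow, (w.ring.valuation_eq_one_iff _).mp u.isUnit, one_mul]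
  obtain ⟨p, q, hq, hpq⟩ := IsFractionRing.div_surjective (A := w.ring) x
  have hq0 : q ≠ 0 := nonZeroDivisors.ne_zero hq
  have hp0 : p ≠ 0 := by
    rintro rfl
    rw [map_zero, zero_div] at hpq
    exact hx hpq.symm
  obtain ⟨m, hm⟩ := h1 p hp0
  obtain ⟨n, hn⟩ := h1 q hq0
  refine ⟨(m : ℤ) - n, ?_⟩
  rw [← hpq, map_div₀, zpow_sub₀ (P_Ord_vunif_ne w), zpow_natCast, zpow_natCast]
  exact congrArg₂ (· / ·) hm hn

theorem val_eq {x : K} (hx : x ≠ 0) :
    w.ring.valuation x = w.ring.valuation (unif w : K) ^ ord w x := by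
  classical
  have h : x ≠ 0 ∧ ∃ n : ℤ, w.ring.valuation x = w.ring.valuation (unif w : K) ^ n :=
    ⟨hx, P_Ord_exists_zpow w hx⟩
  have h1 : ord w x = h.2.choose := by
    unfold ord
    rw [dif_pos h]
  rw [h1]
  exact h.2.choose_spec

theorem val_le_iff {x y : K} (hx : x ≠ 0) (hy : y ≠ 0) :
    w.ring.valuation x ≤ w.ring.valuation y ↔ ord w y ≤ ord w x := by
  rw [val_eq w hx, val_eq w hy]
  exact (P_Ord_anti w).le_iff_ge

theorem val_lt_iff {x y : K} (hx : x ≠ 0) (hy : y ≠ 0) :
    w.ring.valuation x < w.ring.valuation y ↔ ord w y < ord w x := by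
  rw [val_eq w hx, val_eq w hy]
  exact (P_Ord_anti w).lt_iff_gt

private theorem P_Ord_unique {x : K} (hx : x ≠ 0) {n : ℤ}
    (h : w.ring.valuation x = w.ring.valuation (unif w : K) ^ n) : ord w x = n := by
  rw [val_eq w hx] at h
  exact (P_Ord_anti w).injective h

private theorem P_Ord_one : ord w 1 = 0 := by
  apply P_Ord_unique w one_ne_zero
  rw [map_one, zpow_zero]

theorem val_lt_one_iff {x : K} (hx : x ≠ 0) : w.ring.valuation x < 1 ↔ 1 ≤ ord w x := by
  rw [← map_one w.ring.valuation, val_lt_iff w hx one_ne_zero, P_Ord_one]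
  exact Int.lt_iff_add_one_le

theorem val_eq_one_iff {x : K} (hx : x ≠ 0) : w.ring.valuation x = 1 ↔ ord w x = 0 := by
  constructor
  · intro h
    apply P_Ord_unique w hx
    rw [h, zpow_zero]
  · intro h
    rw [val_eq w hx, h, zpow_zero]

theorem mem_ring_iff {x : K} (hx : x ≠ 0) : x ∈ w.ring ↔ 0 ≤ ord w x := by
  rw [← w.ring.valuation_le_one_iff x, ← map_one w.ring.valuation, val_le_iff w hx one_ne_zero,
    P_Ord_one]

theorem ord_zero : ord w 0 = 0 := by
  classical
  unfold ord
  rw [dif_neg fun h => h.1 rfl]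

theorem ord_one : ord w 1 = 0 := P_Ord_one w

theorem ord_mul {x y : K} (hx : x ≠ 0) (hy : y ≠ 0) : ord w (x * y) = ord w x + ord w y := by
  apply P_Ord_unique w (mul_ne_zero hx hy)
  rw [map_mul, val_eq w hx, val_eq w hy, zpow_add₀ (P_Ord_vunif_ne w)]

theorem ord_inv {x : K} (hx : x ≠ 0) : ord w x⁻¹ = -ord w x := by
  apply P_Ord_unique w (inv_ne_zero hx)
  rw [map_inv₀, val_eq w hx, zpow_neg]

theorem ord_div {x y : K} (hx : x ≠ 0) (hy : y ≠ 0) : ord w (x / y) = ord w x - ord w y := by
  rw [div_eq_mul_inv, ord_mul w hx (inv_ne_zero hy), ord_inv w hy, sub_eq_add_neg]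

theorem ord_pow {x : K} (hx : x ≠ 0) (n : ℕ) : ord w (x ^ n) = n * ord w x := by
  apply P_Ord_unique w (pow_ne_zero _ hx)
  rw [map_pow, val_eq w hx, mul_comm, zpow_mul, zpow_natCast]

theorem ord_zpow {x : K} (hx : x ≠ 0) (n : ℤ) : ord w (x ^ n) = n * ord w x := by
  apply P_Ord_unique w (zpow_ne_zero _ hx)
  rw [map_zpow₀, val_eq w hx, mul_comm, zpow_mul]

theorem ord_neg (x : K) : ord w (-x) = ord w x := by
  by_cases hx : x = 0
  · rw [hx, neg_zero]
  · apply P_Ord_unique w (neg_ne_zero.2 hx)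
    rw [Valuation.map_neg, val_eq w hx]

theorem ord_const {c : k} (hc : c ≠ 0) : ord w (algebraMap k K c) = 0 := by
  have h0 : algebraMap k K c ≠ 0 := (_root_.map_ne_zero _).2 hc
  have h1 : 0 ≤ ord w (algebraMap k K c) := (mem_ring_iff w h0).1 (w.const_mem c)
  have h2 : 0 ≤ ord w (algebraMap k K c)⁻¹ := by
    rw [← mem_ring_iff w (inv_ne_zero h0), ← map_inv₀]
    exact w.const_mem _
  rw [ord_inv w h0] at h2
  omega

theorem ord_unif : ord w (unif w : K) = 1 := by
  apply P_Ord_unique w (P_Ord_unif_ne w)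
  rw [zpow_one]

theorem exists_ord (n : ℤ) : ∃ x : K, x ≠ 0 ∧ ord w x = n :=
  ⟨(unif w : K) ^ n, zpow_ne_zero _ (P_Ord_unif_ne w), by
    rw [ord_zpow w (P_Ord_unif_ne w), ord_unif, mul_one]⟩

theorem min_le_ord_add {x y : K} (hx : x ≠ 0) (hy : y ≠ 0) (hxy : x + y ≠ 0) :
    min (ord w x) (ord w y) ≤ ord w (x + y) := by
  rcases le_total (ord w x) (ord w y) with h | h
  · rw [min_eq_left h, ← val_le_iff w hxy hx]
    have h1 := (val_le_iff w hy hx).2 h
    exact (w.ring.valuation.map_add x y).trans (max_le le_rfl h1)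
  · rw [min_eq_right h, ← val_le_iff w hxy hy]
    have h1 := (val_le_iff w hx hy).2 h
    exact (w.ring.valuation.map_add x y).trans (max_le h1 le_rfl)

theorem ord_add_of_lt {x y : K} (hx : x ≠ 0) (h : y = 0 ∨ ord w x < ord w y) :
    x + y ≠ 0 ∧ ord w (x + y) = ord w x := by
  by_cases hy : y = 0
  · rw [hy, add_zero]
    exact ⟨hx, rfl⟩
  · have h1 : ord w x < ord w y := h.resolve_left hy
    have h2 := (val_lt_iff w hy hx).2 h1
    have h3 : w.ring.valuation (x + y) = w.ring.valuation x :=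
      Valuation.map_add_eq_of_lt_left _ h2
    have h4 : x + y ≠ 0 := by
      rw [← Valuation.ne_zero_iff w.ring.valuation, h3]
      exact (Valuation.ne_zero_iff _).2 hx
    exact ⟨h4, P_Ord_unique w h4 (h3.trans (val_eq w hx))⟩

theorem irreducible_iff (x : w.ring) : Irreducible x ↔ (x : K) ≠ 0 ∧ ord w (x : K) = 1 := by
  constructor
  · intro h
    have h0 : (x : K) ≠ 0 := fun h0 => h.ne_zero (Subtype.ext h0)
    refine ⟨h0, P_Ord_unique w h0 ?_⟩
    obtain ⟨u, hu⟩ := IsDiscreteValuationRing.associated_of_irreducible w.ring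
      (unif_irreducible w) h
    have h1 : (x : K) = (unif w : K) * ((u : w.ring) : K) := by
      rw [← hu]
      rfl
    rw [h1, map_mul, (w.ring.valuation_eq_one_iff _).mp u.isUnit, mul_one, zpow_one]
  · rintro ⟨h0, h1⟩
    have h2 : w.ring.valuation ((x : K) / (unif w : K)) = 1 := by
      rw [val_eq_one_iff w (div_ne_zero h0 (P_Ord_unif_ne w)),
        ord_div w h0 (P_Ord_unif_ne w), h1, ord_unif, sub_self]
    have h3 : (x : K) / (unif w : K) ∈ w.ring := (w.ring.valuation_le_one_iff _).1 h2.le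
    have h4 : IsUnit (⟨(x : K) / (unif w : K), h3⟩ : w.ring) :=
      (w.ring.valuation_eq_one_iff _).mpr h2
    have h5 : unif w * (⟨(x : K) / (unif w : K), h3⟩ : w.ring) = x :=
      Subtype.ext (mul_div_cancel₀ _ (P_Ord_unif_ne w))
    have h6 : Associated (unif w) x := ⟨h4.unit, h5⟩
    exact h6.irreducible (unif_irreducible w)

theorem poleLE_iff (n : ℤ) (a : K) : PoleLE w n a ↔ a = 0 ∨ -n ≤ ord w a := by
  constructor
  · intro h
    by_cases ha : a = 0
    · exact Or.inl ha
    · have h1 := h (unif w) (unif_irreducible w)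
      have h2 := zpow_ne_zero n (P_Ord_unif_ne w)
      rw [mem_ring_iff w (mul_ne_zero ha h2), ord_mul w ha h2, ord_zpow w (P_Ord_unif_ne w),
        ord_unif] at h1
      right
      omega
  · intro h ϖ hϖ
    by_cases ha : a = 0
    · rw [ha, zero_mul]
      exact zero_mem _
    · obtain ⟨h0, h1⟩ := (irreducible_iff w ϖ).1 hϖ
      have h2 := zpow_ne_zero n h0
      rw [mem_ring_iff w (mul_ne_zero ha h2), ord_mul w ha h2, ord_zpow w h0, h1]
      have h3 := h.resolve_left ha
      omega

theorem ord_loc {w : Place k K} (L : LocK w) {x : K} (hx : x ≠ 0) :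
    L.toLoc.ord (w.toCompletion x) = ord w x := by
  have hle : ∀ a : K, L.O.valuation (w.toCompletion a) ≤ 1 ↔ w.ring.valuation a ≤ 1 := by
    intro a
    rw [L.O.valuation_le_one_iff, w.ring.valuation_le_one_iff]
    exact L.mem_iff a
  have heq : ∀ a : K, w.ring.valuation a = 1 → L.O.valuation (w.toCompletion a) = 1 := by
    intro a ha
    refine le_antisymm ((hle a).2 ha.le) ?_
    by_contra h
    have h1 := (L.lt_iff a).1 (not_le.1 h)
    rw [ha] at h1
    exact lt_irrefl _ h1
  have hpi : L.O.valuation L.pi ≠ 0 := (Valuation.ne_zero_iff _).2 L.pi_ne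
  have hanti : StrictAnti (fun n : ℤ => L.O.valuation L.pi ^ n) :=
    zpow_right_strictAnti₀ (zero_lt_iff.2 hpi) L.toLoc.pi_lt
  have hu0 := P_Ord_unif_ne w
  have hu0' : w.toCompletion (unif w : K) ≠ 0 := (_root_.map_ne_zero _).2 hu0
  have hun : L.O.valuation (w.toCompletion (unif w : K)) = L.O.valuation L.pi := by
    apply le_antisymm
    · obtain ⟨y, hy, hxy⟩ := (L.pi_gen _).1 ((L.lt_iff _).2 (P_Ord_vunif_lt w))
      rw [hxy, map_mul]
      exact mul_le_of_le_one_right' ((L.O.valuation_le_one_iff y).2 hy)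
    · obtain ⟨a, ha⟩ := L.dense L.pi L.pi L.pi_ne
      have h1 : L.O.valuation (w.toCompletion a) = L.O.valuation L.pi := by
        have h2 := Valuation.map_sub_eq_of_lt_left L.O.valuation ha
        rw [sub_sub_cancel] at h2
        exact h2
      have h2 : w.ring.valuation a < 1 := by
        rw [← L.lt_iff a, h1]
        exact L.toLoc.pi_lt
      have ha0 : a ≠ 0 := by
        rintro rfl
        rw [map_zero, map_zero] at h1
        exact hpi h1.symm
      have h3 := (val_lt_one_iff w ha0).1 h2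
      have h4 : w.ring.valuation (a / (unif w : K)) ≤ 1 := by
        rw [w.ring.valuation_le_one_iff, mem_ring_iff w (div_ne_zero ha0 hu0), ord_div w ha0 hu0,
          ord_unif]
        omega
      have h5 := (hle _).2 h4
      have h6 : w.toCompletion a = w.toCompletion (unif w : K) *
          w.toCompletion (a / (unif w : K)) := by
        rw [← map_mul, mul_div_cancel₀ _ hu0]
      rw [← h1, h6, map_mul]
      exact mul_le_of_le_one_right' h5
  have h1 : w.ring.valuation (x / (unif w : K) ^ ord w x) = 1 := by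
    rw [val_eq_one_iff w (div_ne_zero hx (zpow_ne_zero _ hu0)),
      ord_div w hx (zpow_ne_zero _ hu0), ord_zpow w hu0, ord_unif, mul_one, sub_self]
  have h2 := heq _ h1
  have h3 : w.toCompletion x = w.toCompletion (unif w : K) ^ ord w x *
      w.toCompletion (x / (unif w : K) ^ ord w x) := by
    rw [← map_zpow₀, ← map_mul, mul_div_cancel₀ _ (zpow_ne_zero _ hu0)]
  have h4 : L.O.valuation (w.toCompletion x) = L.O.valuation L.pi ^ ord w x := by
    rw [h3, map_mul, h2, mul_one, map_zpow₀, hun]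
  rw [L.toLoc.val_eq ((_root_.map_ne_zero _).2 hx)] at h4
  exact hanti.injective h4

end Pool.Agent.GBC
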