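import Pool.Agent.Lib.GBC.P.Riem
import Pool.Agent.Lib.GBC.P.Pl

/-!
Module P.FP of GBC. Residue fields at all places; degrees of the places where an element of `A`
vanishes; existence of many places of large degree.

PROOFS. `finite_residue`, `card_residue`: `w` is over `A` or over `B` (`G.places`); for `R = A` or `B`
(`G.dedB`, `G.fracB`) the residue field is `R / cen` (`toRes_surjective`), of finite dimension over `k`
(`fin_quotI`, `fin_quotB`), equal to `w.degree` (`degree_eq`). `degree_pos`: the dimension of a nonzero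
finite dimensional space (the residue field is not zero).
`sum_degree_le`: the ideals `prime w`, `w ∈ S`, are different maximal ideals containing `a`, so `a` is in
their product (see P.Pl), `degI_prod`, `degI_le`, `degI_span_le`.
`exists_large`: there are infinitely many finite places: for a monic irreducible `π ∈ k[X]` let
`a = π (t) ∈ A` (`aeval`). It is not a unit of `A`: otherwise `a⁻¹ ∈ A`; `t ^ (- deg π) a = 1 + t⁻¹ β` with
`β ∈ B`, which is in no maximal ideal of `B` (`G.rad`), so it is a unit of `B` and `a⁻¹ ∈ M (- deg π)`, so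
`a⁻¹ = 0` (`L_neg`). So there is a finite place `w` with `a ∈ prime w` (`exists_le_maximal`, `prime_surj`).
Different `π` are coprime, `1 = u π + u' π'`, so the places are different; there are infinitely many
monic irreducible polynomials. Those of degree `≤ n` are finitely many (`finite_deg`).
-/

set_option autoImplicit false

open Polynomial

namespace Pool.Agent.GBC

open Pool.Agent.BSDP Pool.Agent.BSDFF Pool.Agent.HYP

variable {k K : Type} [Field k] [Field K] [Algebra k K] (G : Geo k K)

private theorem fp_res [Finite k] (R : Subalgebra k K) [IsDedekindDomain R] [IsFractionRing R K]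
    {w : Place k K} (hw : Over R w) (hf : ∀ I : Ideal R, I ≠ ⊥ → Module.Finite k (R ⧸ I)) :
    Finite (IsLocalRing.ResidueField w.ring) ∧
      Nat.card (IsLocalRing.ResidueField w.ring) = Nat.card k ^ w.degree := by
  have := hf (cen R w hw) (cen_ne_bot R hw)
  have hfin : Finite (R ⧸ cen R w hw) := Module.finite_of_finite k
  have e : (R ⧸ cen R w hw) ≃ IsLocalRing.ResidueField w.ring :=
    (RingHom.quotientKerEquivOfSurjective (toRes_surjective R hw)).toEquiv
  refine ⟨Finite.of_equiv _ e, ?_⟩
  rw [degree_eq R hw, ← Nat.card_congr e]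
  exact Module.natCard_eq_pow_finrank

private theorem fp_pos (R : Subalgebra k K) [IsDedekindDomain R] [IsFractionRing R K]
    {w : Place k K} (hw : Over R w) (hf : ∀ I : Ideal R, I ≠ ⊥ → Module.Finite k (R ⧸ I)) :
    0 < w.degree := by
  have := hf (cen R w hw) (cen_ne_bot R hw)
  have h1 := cen_isMaximal R hw
  have h2 : Nontrivial (R ⧸ cen R w hw) := Ideal.Quotient.nontrivial_iff.2 h1.ne_top
  rw [degree_eq R hw]
  exact Module.finrank_pos

include G in
private theorem fp_both [Finite k] (w : Place k K) :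
    Finite (IsLocalRing.ResidueField w.ring) ∧
      Nat.card (IsLocalRing.ResidueField w.ring) = Nat.card k ^ w.degree := by
  rcases G.places w with h | h
  · exact fp_res G.A h G.fin_quotI
  · have := G.dedB
    have := G.fracB
    exact fp_res G.B h G.fin_quotB

include G in
theorem Geo.finite_residue [Finite k] (w : Place k K) :
    Finite (IsLocalRing.ResidueField w.ring) := (fp_both G w).1

include G in
theorem Geo.card_residue [Finite k] (w : Place k K) :
    Nat.card (IsLocalRing.ResidueField w.ring) = Nat.card k ^ w.degree := (fp_both G w).2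

include G in
theorem Geo.degree_pos (w : Place k K) : 0 < w.degree := by
  rcases G.places w with h | h
  · exact fp_pos G.A h G.fin_quotI
  · have := G.dedB
    have := G.fracB
    exact fp_pos G.B h G.fin_quotB

theorem Geo.sum_degree_le {a : G.A} (ha : a ≠ 0) {y : ℤ} (h : (a : K) ∈ G.M y) (S : Finset G.FP)
    (hS : ∀ w ∈ S, a ∈ G.prime w) : ((∑ w ∈ S, w.1.degree : ℕ) : ℤ) ≤ G.d * y := by
  classical
  have hdvd : ∏ P ∈ S.image G.prime, P ∣ Ideal.span {a} := by
    apply Finset.prod_primes_dvd
    · intro P hP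
      obtain ⟨w, -, rfl⟩ := Finset.mem_image.1 hP
      exact Ideal.prime_of_isPrime (G.prime_ne w) (G.prime_max w).isPrime
    · intro P hP
      obtain ⟨w, hw, rfl⟩ := Finset.mem_image.1 hP
      rw [Ideal.dvd_span_singleton]
      exact hS w hw
  rw [Finset.prod_image fun w _ w' _ h => G.prime_inj h] at hdvd
  have hsne : Ideal.span {a} ≠ ⊥ := by
    rw [Ne, Ideal.span_singleton_eq_bot]
    exact ha
  have h1 := G.degI_le hsne (Ideal.dvd_iff_le.1 hdvd)
  rw [G.degI_prod S G.prime fun w _ => G.prime_ne w,
    Finset.sum_congr rfl fun w _ => G.degI_prime w] at h1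
  have h2 := G.degI_span_le ha h
  have h3 : ((∑ w ∈ S, w.1.degree : ℕ) : ℤ) ≤ (G.degI (Ideal.span {a}) : ℤ) := by exact_mod_cast h1
  exact h3.trans h2

private theorem fp_not_unit {f : k[X]} (hm : f.Monic) (hn : 0 < f.natDegree) :
    ¬ IsUnit (aeval (⟨G.t, G.t_mem⟩ : G.A) f) := by
  intro hu
  obtain ⟨b, hb⟩ := hu.exists_right_inv
  have hb' : (aeval G.t f : K) * (b : K) = 1 := by
    have h := congrArg (fun x : G.A => (x : K)) hb
    have h1 : ((aeval (⟨G.t, G.t_mem⟩ : G.A) f : G.A) : K) = aeval G.t f := by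
      have h2 := aeval_algHom_apply G.A.val (⟨G.t, G.t_mem⟩ : G.A) f
      exact h2.symm
    have h3 : ((aeval (⟨G.t, G.t_mem⟩ : G.A) f : G.A) : K) * (b : K) = 1 := h
    rwa [h1] at h3
  -- the reversed polynomial at `t⁻¹`
  have hrev : (aeval G.t⁻¹ f.reverse : K) * G.t ^ f.natDegree = aeval G.t f := by
    have hinv : Invertible G.t := invertibleOfNonzero G.t_ne
    have h := eval₂_reverse_mul_pow (algebraMap k K) G.t f
    rw [invOf_eq_inv] at h
    exact h
  have hunit : IsUnit (aeval G.ti f.reverse) := by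
    by_contra hnu
    obtain ⟨m, hm1, hm2⟩ := exists_max_ideal_of_mem_nonunits hnu
    have h1 : aeval G.ti f.reverse = aeval G.ti (divX f.reverse) * G.ti + 1 := by
      have h2 := divX_mul_X_add f.reverse
      have h3 : f.reverse.coeff 0 = 1 := by
        rw [coeff_zero_reverse]
        exact hm
      rw [h3] at h2
      have h4 := congrArg (aeval G.ti) h2
      rw [map_add, map_mul, aeval_X, aeval_C, map_one] at h4
      exact h4.symm
    rw [h1] at hm2
    have h5 : aeval G.ti (divX f.reverse) * G.ti ∈ m := m.mul_mem_left _ (G.rad m hm1)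
    have h6 : (1 : G.B) ∈ m := by
      have h7 := m.sub_mem hm2 h5
      rwa [add_sub_cancel_left] at h7
    exact hm1.ne_top ((Ideal.eq_top_iff_one m).2 h6)
  obtain ⟨c, hc⟩ := hunit.exists_right_inv
  have hc' : (aeval G.t⁻¹ f.reverse : K) * (c : K) = 1 := by
    have h := congrArg (fun x : G.B => (x : K)) hc
    have h1 : ((aeval G.ti f.reverse : G.B) : K) = aeval G.t⁻¹ f.reverse := by
      have h2 := aeval_algHom_apply G.B.val G.ti f.reverse
      exact h2.symm
    have h3 : ((aeval G.ti f.reverse : G.B) : K) * (c : K) = 1 := h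
    rwa [h1] at h3
  have hne : (aeval G.t⁻¹ f.reverse : K) ≠ 0 := left_ne_zero_of_mul_eq_one hc'
  have h1 : G.t ^ f.natDegree * (b : K) = (c : K) := by
    apply mul_left_cancel₀ hne
    rw [hc', ← mul_assoc, hrev, hb']
  have h2 : (b : K) ∈ G.M (-(f.natDegree : ℤ)) := by
    rw [G.mem_M, neg_neg, zpow_natCast, h1]
    exact c.2
  have h3 := G.L_neg (by omega) b.2 h2
  rw [h3, mul_zero] at hb'
  exact zero_ne_one hb'

private theorem fp_exists {f : k[X]} (hm : f.Monic) (hn : 0 < f.natDegree) :
    ∃ w : G.FP, aeval (⟨G.t, G.t_mem⟩ : G.A) f ∈ G.prime w := by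
  obtain ⟨m, hm1, hm2⟩ := exists_max_ideal_of_mem_nonunits (fp_not_unit G hm hn)
  obtain ⟨w, rfl⟩ := G.prime_surj m hm1
  exact ⟨w, hm2⟩

private theorem fp_infinite [Finite k] : Infinite G.FP := by
  classical
  rw [← not_finite_iff_infinite]
  intro hfin
  have := Fintype.ofFinite G.FP
  have hcard : ∀ w : G.FP, 1 < Nat.card (G.κ w) := by
    intro w
    have := G.fin_κ w
    exact Finite.one_lt_card
  let g : k[X] := ∏ w : G.FP, ((X : k[X]) ^ Nat.card (G.κ w) - X)
  have hg : g.Monic := by
    apply monic_prod_of_monic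
    intro w _
    apply monic_X_pow_sub
    rw [degree_X]
    exact_mod_cast hcard w
  have hX : (X * g).Monic := monic_X.mul hg
  have hd : 0 < (X * g).natDegree := by
    rw [natDegree_X_mul hg.ne_zero]
    omega
  have hf : (X * g + 1).Monic := by
    apply hX.add_of_left
    rw [degree_one, degree_eq_natDegree hX.ne_zero]
    exact_mod_cast hd
  have hfd : 0 < (X * g + 1).natDegree := by
    have h : (X * g + 1).natDegree = (X * g).natDegree := by
      have := natDegree_add_C (p := X * g) (a := 1)
      rwa [C_1] at this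
    rw [h]
    exact hd
  obtain ⟨w, hw⟩ := fp_exists G hf hfd
  have hw1 : aeval (⟨G.t, G.t_mem⟩ : G.A) ((X : k[X]) ^ Nat.card (G.κ w) - X) ∈ G.prime w := by
    have hf := G.fin_κ w
    let _ : Fintype (G.κ w) := Fintype.ofFinite _
    have hc : Nat.card (G.κ w) = Fintype.card (G.κ w) := Nat.card_eq_fintype_card
    rw [map_sub, map_pow, aeval_X]
    change G.res w _ = 0
    rw [map_sub, map_pow, hc, FiniteField.pow_card, sub_self]
  have hw2 : aeval (⟨G.t, G.t_mem⟩ : G.A) (X * g) ∈ G.prime w := by
    have h1 : (X : k[X]) ^ Nat.card (G.κ w) - X ∣ X * g :=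
      (Finset.dvd_prod_of_mem _ (Finset.mem_univ w)).mul_left _
    obtain ⟨r, hr⟩ := h1
    rw [hr, map_mul]
    exact (G.prime w).mul_mem_right _ hw1
  rw [map_add, map_one] at hw
  have h6 : (1 : G.A) ∈ G.prime w := by
    have h7 := (G.prime w).sub_mem hw hw2
    rwa [add_sub_cancel_left] at h7
  exact (G.prime_max w).ne_top ((Ideal.eq_top_iff_one _).2 h6)

theorem Geo.exists_large [Finite k] (n N : ℕ) :
    ∃ S : Finset G.FP, N ≤ S.card ∧ ∀ w ∈ S, n ≤ w.1.degree := by
  have hinf := fp_infinite G
  have h1 : {w : G.FP | w.1.degree < n}.Finite := by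
    have h2 : {w : G.FP | w.1.degree < n} = ⋃ e ∈ Set.Iio n, {w : G.FP | w.1.degree = e} := by
      ext w
      simp
    rw [h2]
    exact (Set.finite_Iio n).biUnion fun e _ => G.finite_deg e
  have h3 : ({w : G.FP | w.1.degree < n}ᶜ).Infinite := h1.infinite_compl
  obtain ⟨S, hS, hc⟩ := h3.exists_subset_card_eq N
  refine ⟨S, hc.ge, fun w hw => ?_⟩
  have h4 := hS hw
  simpa using h4

end Pool.Agent.GBC
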