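import Pool.Agent.Lib.GBC.P.Cen
import Pool.Agent.Lib.HYP.F.Dict

/-!
Module P.Dense of GBC. From `R` to the valuation ring of the completion at a place over `R`.

PROOFS (compare `HYP/F/RegT.lean`, the case `R = k[t]`). `L : LocK w`, `V = L.O.valuation`,
`φ = w.toCompletion`. `res_iso`: the ring homomorphism `w.ring → L.O` (`L.mem_iff`) is local
(`L.lt_iff`), so it induces `ψ` on the residue fields (`IsLocalRing.ResidueField.map`), injective;
surjective by `L.dense x 1` (`x ∈ L.O`, `V (x - φ a) < 1`, `a ∈ w.ring` by `L.mem_iff`).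
`dense2`: `u ∈ L.O`. There is `a₀ ∈ R` with `V (u - φ a₀) < 1` (`ψ` surjective and `toRes_surjective`). Let
`ϖ ∈ R` with `ord w ϖ = 1` (`exists_ord_one`): `V (φ ϖ) = V L.pi` (`ord_loc`). `u - φ a₀ = φ ϖ u₁`,
`u₁ ∈ L.O`; apply the first step to `u₁`: `u₁ = φ a₁ + u₂`, `V u₂ < 1`; `a = a₀ + ϖ a₁`,
`u - φ a = φ ϖ u₂ = L.pi ^ 2 y` with `y ∈ L.O` (`L.pi_gen`).
`coef_loc`: `L.mem_iff`. `reg_loc`: suppose `f_w = C (π ^ 2) a + C π p b + p ^ 2 c`, `π = L.pi`, `p` monic of
degree `≥ 1`, all with coefficients in `L.O`. `π = φ ϖ ε`, `ε` a unit of `L.O`. Choose `p', b', c' : R[X]`,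
`p'` monic of the same degree as `p`, whose images are congruent to `p`, `ε b`, `c` modulo `π ^ 2`
(`dense2` for every coefficient). Then `f - C ϖ * p' * b' - p' ^ 2 * c'` has coefficients `r ∈ R` with
`φ r ∈ π ^ 2 L.O`, i.e. `r = 0` or `2 ≤ ord w r` (`ord_loc`), `r ∈ P ^ 2` (`mem_cen_pow`), `P = cen`. So
`f ∈ (P.map C) ^ 2 + P.map C * (p') + (p') ^ 2 ⊆ (P.map C ⊔ span {p'}) ^ 2`, a contradiction.
-/

set_option autoImplicit false

open Polynomial

namespace Pool.Agent.GBC

open Pool.Agent.BSDP Pool.Agent.BSDFF Pool.Agent.HYP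

variable {k K : Type} [Field k] [Field K] [Algebra k K]

private noncomputable def Dense_toO {w : Place k K} (L : LocK w) : w.ring →+* L.O where
  toFun x := ⟨w.toCompletion x, (L.mem_iff x).2 x.2⟩
  map_one' := Subtype.ext (map_one w.toCompletion)
  map_zero' := Subtype.ext (map_zero w.toCompletion)
  map_mul' x y := Subtype.ext (map_mul w.toCompletion (x : K) (y : K))
  map_add' x y := Subtype.ext (map_add w.toCompletion (x : K) (y : K))

private theorem Dense_unit {w : Place k K} (x : w.ring) (h : ¬ w.ring.valuation (x : K) < 1) :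
    IsUnit x := by
  have h1 := mt (ValuationSubring.valuation_lt_one_iff w.ring x).1 h
  rw [IsLocalRing.mem_maximalIdeal] at h1
  exact not_not.1 h1

private theorem Dense_step0 {w : Place k K} (L : LocK w)
    (u : w.ring.valuation.Completion) (hu : u ∈ L.O) :
    ∃ a : w.ring, L.O.valuation (u - w.toCompletion (a : K)) < 1 := by
  obtain ⟨a, ha⟩ := L.dense u 1 one_ne_zero
  rw [map_one] at ha
  have h1 : u - w.toCompletion a ∈ L.O := (L.O.valuation_le_one_iff _).1 ha.le
  have h2 : w.toCompletion a ∈ L.O := by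
    have h3 := sub_mem hu h1
    rwa [sub_sub_cancel] at h3
  exact ⟨⟨a, (L.mem_iff a).1 h2⟩, ha⟩

theorem res_iso {w : Place k K} (L : LocK w) :
    ∃ ψ : IsLocalRing.ResidueField w.ring →+* IsLocalRing.ResidueField L.O, Function.Bijective ψ ∧
      ∀ (x : K) (hx : x ∈ w.ring), ψ (IsLocalRing.residue w.ring ⟨x, hx⟩) =
        IsLocalRing.residue L.O ⟨w.toCompletion x, (L.mem_iff x).2 hx⟩ := by
  have hloc : IsLocalHom (Dense_toO L) := by
    constructor
    intro x hx
    apply Dense_unit
    intro h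
    have h1 := (L.lt_iff (x : K)).2 h
    have h2 : L.O.valuation (w.toCompletion (x : K)) = 1 :=
      (ValuationSubring.valuation_eq_one_iff L.O (Dense_toO L x)).1 hx
    exact absurd h1 (by rw [h2]; exact lt_irrefl _)
  refine ⟨IsLocalRing.ResidueField.map (Dense_toO L), ⟨RingHom.injective _, ?_⟩, ?_⟩
  · intro y
    obtain ⟨u, rfl⟩ := IsLocalRing.residue_surjective y
    obtain ⟨a, ha⟩ := Dense_step0 L (u : w.ring.valuation.Completion) u.2
    refine ⟨IsLocalRing.residue w.ring a, ?_⟩
    rw [IsLocalRing.ResidueField.map_residue, eq_comm, ← sub_eq_zero, ← map_sub,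
      IsLocalRing.residue_eq_zero_iff]
    exact (ValuationSubring.valuation_lt_one_iff L.O _).2 ha
  · intro x hx
    rw [IsLocalRing.ResidueField.map_residue]
    rfl

variable (R : Subalgebra k K) [IsDedekindDomain R] [IsFractionRing R K]

private theorem Dense_step {w : Place k K} (hw : Over R w) (L : LocK w)
    (u : w.ring.valuation.Completion) (hu : u ∈ L.O) :
    ∃ a : R, L.O.valuation (u - w.toCompletion (a : K)) < 1 := by
  obtain ⟨a, ha⟩ := Dense_step0 L u hu
  obtain ⟨b, hb⟩ := toRes_surjective R hw (IsLocalRing.residue w.ring a)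
  refine ⟨b, ?_⟩
  have h1 : IsLocalRing.residue w.ring (a - toRing R w hw b) = 0 := by
    rw [map_sub, sub_eq_zero]
    exact hb.symm
  rw [IsLocalRing.residue_eq_zero_iff] at h1
  have h2 : L.O.valuation (w.toCompletion ((a : K) - (b : K))) < 1 :=
    (L.lt_iff _).2 ((ValuationSubring.valuation_lt_one_iff w.ring _).1 h1)
  have h3 : u - w.toCompletion (b : K) =
      (u - w.toCompletion (a : K)) + w.toCompletion ((a : K) - (b : K)) := by
    rw [map_sub]
    ring
  rw [h3]
  exact (L.O.valuation.map_add _ _).trans_lt (max_lt ha h2)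

private theorem Dense_mem {w : Place k K} (hw : Over R w) (L : LocK w) (a : R) :
    w.toCompletion (a : K) ∈ L.O := (L.mem_iff _).2 (hw _ a.2)

private theorem Dense_phi {w : Place k K} (hw : Over R w) (L : LocK w) :
    ∃ (v : R) (e e' : w.ring.valuation.Completion), ord w (v : K) = 1 ∧ v ≠ 0 ∧ e ∈ L.O ∧ e' ∈ L.O ∧
      w.toCompletion (v : K) = L.pi * e ∧ L.pi = w.toCompletion (v : K) * e' := by
  obtain ⟨v, hv0, hv⟩ := exists_ord_one R hw
  have hv0' : (v : K) ≠ 0 := fun h => hv0 (Subtype.ext h)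
  have h0 : w.toCompletion (v : K) ≠ 0 := by
    rw [Ne, map_eq_zero]
    exact hv0'
  have h1 : L.O.valuation (w.toCompletion (v : K)) = L.O.valuation L.pi := by
    rw [L.toLoc.val_eq h0, ord_loc L hv0', hv, zpow_one]
  have hp := L.pi_ne
  refine ⟨v, w.toCompletion (v : K) / L.pi, L.pi / w.toCompletion (v : K), hv, hv0, ?_, ?_, ?_, ?_⟩
  · rw [← ValuationSubring.valuation_le_one_iff, map_div₀, h1]
    exact div_self_le_one _
  · rw [← ValuationSubring.valuation_le_one_iff, map_div₀, h1]
    exact div_self_le_one _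
  · rw [mul_div_cancel₀ _ hp]
  · rw [mul_div_cancel₀ _ h0]

theorem dense2 {w : Place k K} (hw : Over R w) (L : LocK w)
    (u : w.ring.valuation.Completion) (hu : u ∈ L.O) :
    ∃ (a : R) (y : w.ring.valuation.Completion), y ∈ L.O ∧
      u = w.toCompletion (a : K) + L.pi ^ 2 * y := by
  obtain ⟨v, e, e', -, -, he, he', h1, h2⟩ := Dense_phi R hw L
  obtain ⟨p0, h3⟩ := Dense_step R hw L u hu
  obtain ⟨y1, hy1, h4⟩ := (L.pi_gen _).1 h3
  obtain ⟨p1, h5⟩ := Dense_step R hw L (e' * y1) (mul_mem he' hy1)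
  obtain ⟨y2, hy2, h6⟩ := (L.pi_gen _).1 h5
  refine ⟨p0 + v * p1, e * y2, mul_mem he hy2, ?_⟩
  have h0 : w.toCompletion ((p0 + v * p1 : R) : K) =
      w.toCompletion (p0 : K) + w.toCompletion (v : K) * w.toCompletion (p1 : K) := by
    rw [← map_mul, ← map_add]
    rfl
  rw [h0]
  set φπ := w.toCompletion (v : K)
  have h7 : u = w.toCompletion (p0 : K) + L.pi * y1 := by
    rw [← h4]; ring
  have h8 : e' * y1 = w.toCompletion (p1 : K) + L.pi * y2 := by
    rw [← h6]; ring
  have h9 : L.pi * y1 = φπ * (e' * y1) := by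
    rw [← mul_assoc, ← h2]
  rw [h7, h9, h8, mul_add]
  have h10 : φπ * (L.pi * y2) = L.pi ^ 2 * (e * y2) := by
    rw [h1]; ring
  rw [h10]
  ring

theorem coef_loc {w : Place k K} (hw : Over R w) (L : LocK w) (f : R[X]) :
    Coef L.toLoc ((f.map (algebraMap R K)).map w.toCompletion) := by
  intro i
  rw [Polynomial.coeff_map, Polynomial.coeff_map]
  exact Dense_mem R hw L _

private theorem Dense_add {F : Type} [Field F] {L : Loc F} {p q : F[X]} (hp : Coef L p)
    (hq : Coef L q) : Coef L (p + q) := by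
  intro i
  rw [coeff_add]
  exact add_mem (hp i) (hq i)

private theorem Dense_mul {F : Type} [Field F] {L : Loc F} {p q : F[X]} (hp : Coef L p)
    (hq : Coef L q) : Coef L (p * q) := by
  intro i
  rw [coeff_mul]
  exact sum_mem fun x _ => mul_mem (hp _) (hq _)

private theorem Dense_C {F : Type} [Field F] {L : Loc F} {a : F} (ha : a ∈ L.O) :
    Coef L (C a) := by
  intro i
  rw [coeff_C]
  split_ifs
  · exact ha
  · exact zero_mem _

/-- approximation of polynomials modulo `L.pi ^ 2` -/
private theorem Dense_approx {w : Place k K} (hw : Over R w) (L : LocK w)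
    (P : (w.ring.valuation.Completion)[X]) (hP : Coef L.toLoc P) :
    ∃ (P' : R[X]) (Q : (w.ring.valuation.Completion)[X]), Coef L.toLoc Q ∧
      (∀ i, P.natDegree < i → P'.coeff i = 0) ∧
      P = (P'.map (algebraMap R K)).map w.toCompletion + C (L.pi ^ 2) * Q := by
  choose p y hy h using fun i => dense2 R hw L (P.coeff i) (hP i)
  refine ⟨∑ i ∈ Finset.range (P.natDegree + 1), monomial i (p i),
    ∑ i ∈ Finset.range (P.natDegree + 1), monomial i (y i), ?_, ?_, ?_⟩
  · intro i
    rw [finsetSum_coeff]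
    refine sum_mem fun j _ => ?_
    rw [coeff_monomial]
    split_ifs
    · exact hy _
    · exact zero_mem _
  · intro i hi
    rw [finsetSum_coeff]
    refine Finset.sum_eq_zero fun j hj => ?_
    rw [coeff_monomial, if_neg]
    intro hji
    have := Finset.mem_range.1 hj
    omega
  · ext i
    rw [coeff_add, coeff_C_mul, coeff_map, coeff_map, finsetSum_coeff, finsetSum_coeff]
    simp only [coeff_monomial, Finset.sum_ite_eq', Finset.mem_range]
    by_cases hi : i < P.natDegree + 1
    · rw [if_pos hi, if_pos hi]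
      exact h i
    · rw [if_neg hi, if_neg hi, map_zero, map_zero, mul_zero, add_zero]
      exact coeff_eq_zero_of_natDegree_lt (by omega)

theorem reg_loc {w : Place k K} (hw : Over R w) (L : LocK w) {f : R[X]} (hf : f.Monic)
    (hr : RegI (cen R w hw) f) :
    Reg L.toLoc ((f.map (algebraMap R K)).map w.toCompletion) := by
  intro p a b c hpm hpd hp ha hb hc hfe
  obtain ⟨v, e, e', hv, hv0, he, he', h1, h2⟩ := Dense_phi R hw L
  have hv0' : (v : K) ≠ 0 := fun h => hv0 (Subtype.ext h)
  set φ := w.toCompletion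
  set n := p.natDegree
  -- the monic polynomial
  have hlow : Coef L.toLoc (p - X ^ n) := by
    intro i
    rw [coeff_sub, coeff_X_pow]
    refine sub_mem (hp i) ?_
    split_ifs
    · exact one_mem _
    · exact zero_mem _
  obtain ⟨p₀, q1, hq1, hd, hp₀⟩ := Dense_approx R hw L (p - X ^ n) hlow
  obtain ⟨b', q2, hq2, -, hb'⟩ := Dense_approx R hw L (C e' * b) (Dense_mul (Dense_C he') hb)
  obtain ⟨c', q3, hq3, -, hc'⟩ := Dense_approx R hw L c hc
  have hdeg : ∀ i, n ≤ i → p₀.coeff i = 0 := by
    intro i hi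
    refine hd i ?_
    have h3 : (p - X ^ n).natDegree < n := by
      have h4 : (p - X ^ n).degree < p.degree := by
        refine degree_sub_lt_left ?_ hpm.ne_zero ?_
        · rw [degree_X_pow, degree_eq_natDegree hpm.ne_zero]
        · rw [hpm.leadingCoeff, leadingCoeff_X_pow]
      by_cases h5 : p - X ^ n = 0
      · rw [h5, natDegree_zero]
        exact hpd
      · exact natDegree_lt_natDegree h5 h4
    exact h3.trans_le hi
  have hm : (X ^ n + p₀).Monic ∧ (X ^ n + p₀).natDegree = n := by
    have h3 : p₀.degree < (n : ℕ) := by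
      rw [degree_lt_iff_coeff_zero]
      exact hdeg
    refine ⟨monic_X_pow_add h3, ?_⟩
    have h4 : (X ^ n + p₀).degree = (X ^ n : R[X]).degree :=
      degree_add_eq_left_of_degree_lt (by rw [degree_X_pow]; exact h3)
    have h5 := natDegree_eq_of_degree_eq h4
    rw [h5, natDegree_X_pow]
  set p' := X ^ n + p₀
  have hp' : p = (p'.map (algebraMap R K)).map φ + C (L.pi ^ 2) * q1 := by
    have h3 : (p'.map (algebraMap R K)).map φ = X ^ n + (p₀.map (algebraMap R K)).map φ := by
      simp only [p', Polynomial.map_add, Polynomial.map_pow, Polynomial.map_X]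
    rw [h3, add_assoc, ← hp₀]
    ring
  have key : ((f - C v * p' * b' - p' ^ 2 * c').map (algebraMap R K)).map φ = C (L.pi ^ 2) *
      (a + C (φ (v : K)) * (q1 * (C e' * b) + (p'.map (algebraMap R K)).map φ * q2) +
        (q1 * (p + (p'.map (algebraMap R K)).map φ) * c +
          (p'.map (algebraMap R K)).map φ ^ 2 * q3)) := by
    have h3 : ((f - C v * p' * b' - p' ^ 2 * c').map (algebraMap R K)).map φ =
        (f.map (algebraMap R K)).map φ - C (φ (v : K)) * (p'.map (algebraMap R K)).map φ *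
          (b'.map (algebraMap R K)).map φ -
          (p'.map (algebraMap R K)).map φ ^ 2 * (c'.map (algebraMap R K)).map φ := by
      simp only [Polynomial.map_sub, Polynomial.map_mul, Polynomial.map_pow, Polynomial.map_C]
      rfl
    have h4 : C L.pi = C (φ (v : K)) * C e' := by
      rw [← C_mul, ← h2]
    rw [h3, hfe, h4]
    have e1 : (p'.map (algebraMap R K)).map φ = p - C (L.pi ^ 2) * q1 := by rw [hp']; ring
    have e2 : (b'.map (algebraMap R K)).map φ = C e' * b - C (L.pi ^ 2) * q2 := by rw [hb']; ring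
    have e3 : (c'.map (algebraMap R K)).map φ = c - C (L.pi ^ 2) * q3 := by rw [hc']; ring
    rw [e2, e3, e1]
    ring
  have hcoef : Coef L.toLoc (a + C (φ (v : K)) * (q1 * (C e' * b) +
        (p'.map (algebraMap R K)).map φ * q2) +
        (q1 * (p + (p'.map (algebraMap R K)).map φ) * c +
          (p'.map (algebraMap R K)).map φ ^ 2 * q3)) := by
    have c1 := coef_loc R hw L p'
    refine Dense_add (Dense_add ha (Dense_mul (Dense_C (Dense_mem R hw L v)) (Dense_add
      (Dense_mul hq1 (Dense_mul (Dense_C he') hb)) (Dense_mul c1 hq2)))) (Dense_add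
      (Dense_mul (Dense_mul hq1 (Dense_add hp c1)) hc) (Dense_mul ?_ hq3))
    rw [pow_two]
    exact Dense_mul c1 c1
  have hmem : f - C v * p' * b' - p' ^ 2 * c' ∈
      ((cen R w hw).map (C : R →+* R[X])) ^ 2 := by
    rw [← Ideal.map_pow, Ideal.mem_map_C_iff]
    intro i
    rw [mem_cen_pow R hw]
    by_cases h : (f - C v * p' * b' - p' ^ 2 * c').coeff i = 0
    · exact Or.inl h
    · right
      have h4 := congrArg (fun q => coeff q i) key
      simp only [coeff_map, coeff_C_mul] at h4
      set r := (f - C v * p' * b' - p' ^ 2 * c').coeff i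
      have hr0 : (r : K) ≠ 0 := fun h' => h (Subtype.ext h')
      have hφr : φ (r : K) ≠ 0 := by
        rw [Ne, map_eq_zero]
        exact hr0
      have h5 : L.O.valuation (φ (r : K)) ≤ L.O.valuation (L.pi ^ 2) := by
        refine (congrArg L.O.valuation h4).le.trans ?_
        rw [map_mul]
        exact mul_le_of_le_one_right' ((L.O.valuation_le_one_iff _).2 (hcoef i))
      rw [L.toLoc.val_le_iff hφr (pow_ne_zero 2 L.pi_ne), L.toLoc.ord_pow L.pi_ne,
        L.toLoc.ord_pi, ord_loc L hr0] at h5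
      simpa using h5
  refine hr p' hm.1 (by rw [hm.2]; exact hpd) ?_
  set J := (cen R w hw).map (C : R →+* R[X]) ⊔ Ideal.span {p'}
  have hvc : v ∈ cen R w hw := by
    rw [mem_cen R hw, val_lt_one_iff w hv0', hv]
  have j1 : C v ∈ J := Ideal.mem_sup_left (Ideal.mem_map_of_mem _ hvc)
  have j2 : p' ∈ J := Ideal.mem_sup_right (Ideal.mem_span_singleton_self p')
  have hfin : f = (f - C v * p' * b' - p' ^ 2 * c') + C v * p' * b' + p' * p' * c' := by ring
  rw [hfin, pow_two]
  refine add_mem (add_mem ?_ ?_) ?_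
  · rw [pow_two] at hmem
    exact Ideal.mul_mono le_sup_left le_sup_left hmem
  · exact Ideal.mul_mem_right _ _ (Ideal.mul_mem_mul j1 j2)
  · exact Ideal.mul_mem_right _ _ (Ideal.mul_mem_mul j2 j2)

end Pool.Agent.GBC
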