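import Pool.Agent.Lib.GBC.PDef
import Pool.Agent.Lib.HYP.F.Comp

/-!
Module P.Comp of GBC. The completion of `K` at a place with finite residue field is a local field
with complete valuation ring.

PROOF. Exactly the proof of `exists_locAt_complete` in `HYP/F/Comp.lean` (copy the file with its private
lemmas), with `K` instead of `k(t)` (`RatFunc k`), `LocK` instead of `LocAt` and the hypothesis
`Finite (ResidueField w.ring)` instead of `comp_residue_finite`. (All lemmas used there about
`Place.toCompletion` are for general `K`.)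
-/

set_option autoImplicit false

open Polynomial

namespace Pool.Agent.GBC

open Pool.Agent.BSDP Pool.Agent.BSDFF Pool.Agent.HYP

open BSDFF in
private theorem pcomp_comp_dense {k K : Type} [Field k] [Field K] [Algebra k K] (w : Place k K) (x c : w.ring.valuation.Completion)
    (hc : c ≠ 0) : ∃ a : K,
      (Valued.v : Valuation w.ring.valuation.Completion _) (x - w.toCompletion a) <
      (Valued.v : Valuation w.ring.valuation.Completion _) c := by
  have hopen : IsOpen {y : w.ring.valuation.Completion |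
      (Valued.v : Valuation w.ring.valuation.Completion _).restrict (x - y) <
      (Valued.v : Valuation w.ring.valuation.Completion _).restrict c} := by
    have h := Valued.isOpen_ball w.ring.valuation.Completion
      ((Valued.v : Valuation w.ring.valuation.Completion _).restrict c)
    exact h.preimage (continuous_const.sub continuous_id)
  obtain ⟨y, hy1, a, ha⟩ := (UniformSpace.Completion.denseRange_coe
    (α := WithVal w.ring.valuation)).inter_open_nonempty _ hopen ⟨x, by
      simp only [Set.mem_ofPred_eq, sub_self, map_zero]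
      rw [Valuation.pos_iff]
      exact hc⟩
  refine ⟨WithVal.equiv w.ring.valuation a, ?_⟩
  have h2 : w.toCompletion (WithVal.equiv w.ring.valuation a) = y := by
    rw [← ha]
    rfl
  rw [h2]
  simpa using hy1

private theorem pcomp_comp_value {k K : Type} [Field k] [Field K] [Algebra k K] (w : Place k K) {ϖ : w.ring} (hϖ : Irreducible ϖ)
    (a : K) (ha : a ≠ 0) : ∃ n : ℤ, w.ring.valuation a = w.ring.valuation (ϖ : K) ^ n := by
  have h1 : ∀ p : w.ring, p ≠ 0 → ∃ n : ℕ,
      w.ring.valuation (p : K) = w.ring.valuation (ϖ : K) ^ n := by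
    intro p hp
    obtain ⟨n, u, hu⟩ := IsDiscreteValuationRing.eq_unit_mul_pow_irreducible hp hϖ
    refine ⟨n, ?_⟩
    have h2 : (p : K) = ((u : w.ring) : K) * (ϖ : K) ^ n := by
      rw [hu]
      rfl
    rw [h2, map_mul, map_pow, (w.ring.valuation_eq_one_iff _).mp u.isUnit, one_mul]
  obtain ⟨p, q, hq, hpq⟩ := IsFractionRing.div_surjective (A := w.ring) a
  have hq0 : q ≠ 0 := nonZeroDivisors.ne_zero hq
  have hp0 : p ≠ 0 := by
    rintro rfl
    rw [map_zero, zero_div] at hpq
    exact ha hpq.symm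
  obtain ⟨m, hm⟩ := h1 p hp0
  obtain ⟨n, hn⟩ := h1 q hq0
  refine ⟨(m : ℤ) - n, ?_⟩
  have hϖ0 : w.ring.valuation (ϖ : K) ≠ 0 := by
    rw [Valuation.ne_zero_iff]
    intro h0
    exact hϖ.ne_zero (Subtype.ext h0)
  rw [← hpq, map_div₀, zpow_sub₀ hϖ0, zpow_natCast, zpow_natCast]
  exact congrArg₂ (· / ·) hm hn

open Filter Topology in
private theorem pcomp_adic_aux {C Γ : Type*} [Field C] [LinearOrderedCommGroupWithZero Γ]
    [hv : Valued C Γ] [CompleteSpace C] (p : C) (hp0 : p ≠ 0) (hp1 : hv.v p < 1)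
    (hgen : ∀ x : C, hv.v x < 1 → hv.v x ≤ hv.v p)
    (harch : ∀ x : C, x ≠ 0 → ∃ n : ℕ, hv.v p ^ n ≤ hv.v x) :
    IsAdicComplete (IsLocalRing.maximalIdeal hv.v.valuationSubring) hv.v.valuationSubring := by
  set R := hv.v.valuationSubring with hR
  have hint : hv.v.Integers R := Valuation.valuationSubring.integers hv.v
  have hmax : ∀ x : R, x ∈ IsLocalRing.maximalIdeal R ↔ hv.v (x : C) < 1 := by
    intro x
    rw [IsLocalRing.mem_maximalIdeal, mem_nonunits_iff, hint.isUnit_iff_valuation_eq_one]
    change ¬ (hv.v (x : C) = 1) ↔ _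
    have hx : hv.v (x : C) ≤ 1 := x.2
    exact ⟨fun h => lt_of_le_of_ne hx h, fun h => h.ne⟩
  have hpR : p ∈ R := hp1.le
  set P : R := ⟨p, hpR⟩ with hP
  have hvp0 : hv.v p ≠ 0 := (Valuation.ne_zero_iff _).2 hp0
  have hspan : IsLocalRing.maximalIdeal R = Ideal.span {P} := by
    ext x
    rw [Ideal.mem_span_singleton, hmax, hint.dvd_iff_le]
    change _ ↔ hv.v (x : C) ≤ hv.v p
    exact ⟨fun h => hgen _ h, fun h => lt_of_le_of_lt h hp1⟩
  have hpow : ∀ (n : ℕ) (x : R), x ∈ (IsLocalRing.maximalIdeal R) ^ n ↔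
      hv.v (x : C) ≤ hv.v p ^ n := by
    intro n x
    rw [hspan, Ideal.span_singleton_pow, Ideal.mem_span_singleton, hint.dvd_iff_le, map_pow]
    change hv.v (x : C) ≤ hv.v (p ^ n) ↔ _
    rw [map_pow]
  have hsm : ∀ (n : ℕ) (x y : R),
      x ≡ y [SMOD ((IsLocalRing.maximalIdeal R) ^ n • ⊤ : Submodule R R)] ↔
      hv.v ((x : C) - y) ≤ hv.v p ^ n := by
    intro n x y
    rw [← Ideal.one_eq_top, Ideal.smul_eq_mul, mul_one, SModEq.sub_mem, hpow]
    rfl
  have hlt : ∀ n : ℕ, hv.v p ^ (n + 1) < hv.v p ^ n := by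
    intro n
    rw [pow_succ]
    exact mul_lt_of_lt_one_right (zero_lt_iff.2 (pow_ne_zero _ hvp0)) hp1
  have hauss : IsHausdorff (IsLocalRing.maximalIdeal R) R := by
    refine ⟨fun x hx => ?_⟩
    by_contra hx0
    have hxC : (x : C) ≠ 0 := fun h => hx0 (Subtype.ext h)
    obtain ⟨n, hn⟩ := harch x hxC
    have h1 := (hsm (n + 1) x 0).1 (hx (n + 1))
    rw [ZeroMemClass.coe_zero, sub_zero] at h1
    exact absurd (hn.trans h1) (not_le.2 (hlt n))
  have hprec : IsPrecomplete (IsLocalRing.maximalIdeal R) R := by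
    refine ⟨fun f hf => ?_⟩
    have hf' : ∀ m n, m ≤ n → hv.v ((f m : C) - f n) ≤ hv.v p ^ m :=
      fun m n hmn => (hsm m _ _).1 (hf hmn)
    have hc : CauchySeq (fun n => (f n : C)) := by
      unfold CauchySeq
      rw [Valued.cauchy_iff]
      refine ⟨inferInstance, fun γ => ?_⟩
      obtain ⟨x, hx0, hx⟩ : ∃ x : C, x ≠ 0 ∧ hv.v.restrict x ≤ γ.1 := by
        obtain ⟨x, hx⟩ := MonoidWithZeroHom.ValueGroup₀.restrict₀_surjective
          (f := MonoidWithZeroHom.ofClass hv.v) γ.1
        refine ⟨x, ?_, le_of_eq hx⟩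
        rintro rfl
        exact γ.ne_zero (by rw [← hx, map_zero])
      obtain ⟨n, hn⟩ := harch x hx0
      refine ⟨(fun n => (f n : C)) '' Set.Ici (n + 1), ?_, ?_⟩
      · exact image_mem_map (Ici_mem_atTop _)
      · rintro _ ⟨i, hi, rfl⟩ _ ⟨j, hj, rfl⟩
        refine lt_of_lt_of_le ?_ hx
        rw [Valuation.restrict_lt_iff]
        refine lt_of_le_of_lt ?_ (lt_of_lt_of_le (hlt n) hn)
        have h1 := hf' (n + 1) i hi
        have h2 := hf' (n + 1) j hj
        have h3 : (f j : C) - f i = ((f (n + 1) : C) - f i) - ((f (n + 1) : C) - f j) := by ring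
        simp only [h3]
        exact (Valuation.map_sub _ _ _).trans (max_le h1 h2)
    obtain ⟨L, hL⟩ := cauchySeq_tendsto_of_complete hc
    have hLn : ∀ n, hv.v ((f n : C) - L) ≤ hv.v p ^ n := by
      intro n
      have hcl : IsClosed {y : C | hv.v.restrict ((f n : C) - y) ≤ hv.v.restrict (p ^ n)} :=
        (Valued.isClosed_closedBall C (hv.v.restrict (p ^ n))).preimage
          (continuous_const.sub continuous_id)
      have hmem : L ∈ {y : C | hv.v.restrict ((f n : C) - y) ≤ hv.v.restrict (p ^ n)} := by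
        refine hcl.mem_of_tendsto hL ?_
        filter_upwards [Ici_mem_atTop n] with m hm
        rw [Valuation.restrict_le_iff, map_pow]
        exact hf' n m hm
      change hv.v.restrict ((f n : C) - L) ≤ hv.v.restrict (p ^ n) at hmem
      rwa [Valuation.restrict_le_iff, map_pow] at hmem
    have hLR : L ∈ R := by
      have h1 := hLn 0
      rw [pow_zero] at h1
      have h2 : hv.v (f 0 : C) ≤ 1 := (f 0).2
      have h3 : L = (f 0 : C) - ((f 0 : C) - L) := by ring
      change hv.v L ≤ 1
      rw [h3]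
      exact (Valuation.map_sub _ _ _).trans (max_le h2 h1)
    exact ⟨⟨L, hLR⟩, fun n => (hsm n _ _).2 (hLn n)⟩
  exact {}

private theorem pcomp_adic_completion {k K : Type} [Field k] [Field K] [Algebra k K] (w : Place k K) :
    IsAdicComplete (IsLocalRing.maximalIdeal
      (Valued.v : Valuation w.ring.valuation.Completion _).valuationSubring)
      (Valued.v : Valuation w.ring.valuation.Completion _).valuationSubring := by
  obtain ⟨ϖ, hϖ⟩ := IsDiscreteValuationRing.exists_irreducible w.ring
  have hϖ1 : w.ring.valuation (ϖ : K) < 1 :=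
    (w.ring.valuation_lt_one_iff ϖ).1 ((IsLocalRing.mem_maximalIdeal _).2 hϖ.not_isUnit)
  have hϖ0 : (ϖ : K) ≠ 0 := fun h => hϖ.ne_zero (Subtype.ext h)
  refine pcomp_adic_aux (w.toCompletion (ϖ : K)) ?_ ?_ ?_ ?_
  · exact (map_ne_zero w.toCompletion).2 hϖ0
  · rw [BSDFF.Odd.valuation_toCompletion]
    exact hϖ1
  · intro x hx
    rw [BSDFF.Odd.valuation_toCompletion]
    obtain ⟨a, ha⟩ := BSDFF.Odd.exists_valuation_eq w x
    rw [ha] at hx ⊢
    have hmem : a ∈ w.ring := (w.ring.valuation_le_one_iff a).1 hx.le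
    have h1 : (⟨a, hmem⟩ : w.ring) ∈ IsLocalRing.maximalIdeal w.ring :=
      (w.ring.valuation_lt_one_iff _).2 hx
    rw [hϖ.maximalIdeal_eq, Ideal.mem_span_singleton] at h1
    obtain ⟨b, hb⟩ := h1
    have h2 : a = (ϖ : K) * (b : K) := congrArg Subtype.val hb
    rw [h2, map_mul]
    exact mul_le_of_le_one_right' (w.ring.valuation_le_one b)
  · intro x hx
    rw [BSDFF.Odd.valuation_toCompletion]
    obtain ⟨a, ha⟩ := BSDFF.Odd.exists_valuation_eq w x
    rw [ha]
    have ha0 : a ≠ 0 := by
      rintro rfl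
      rw [map_zero] at ha
      exact hx ((Valuation.zero_iff _).1 ha)
    rcases le_total 1 (w.ring.valuation a) with h | h
    · exact ⟨0, by rw [pow_zero]; exact h⟩
    · have hmem : a ∈ w.ring := (w.ring.valuation_le_one_iff a).1 h
      obtain ⟨n, u, hu⟩ := IsDiscreteValuationRing.eq_unit_mul_pow_irreducible
        (x := (⟨a, hmem⟩ : w.ring)) (fun h0 => ha0 (congrArg Subtype.val h0)) hϖ
      refine ⟨n, ?_⟩
      have h2 : a = ((u : w.ring) : K) * (ϖ : K) ^ n := by
        have := congrArg Subtype.val hu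
        simpa using this
      have h3 : w.ring.valuation ((u : w.ring) : K) = 1 := w.ring.valuation_unit u
      rw [h2, map_mul, h3, one_mul, map_pow]


private theorem pcomp_hens {C Γ : Type*} [Field C] [LinearOrderedCommGroupWithZero Γ]
    [hv : Valued C Γ]
    (hc : IsAdicComplete (IsLocalRing.maximalIdeal hv.v.valuationSubring) hv.v.valuationSubring) :
    HenselianLocalRing hv.v.valuationSubring := by
  have := hc
  refine { is_henselian := ?_ }
  intro f hf a₀ h1 h2
  refine HenselianRing.is_henselian (I := IsLocalRing.maximalIdeal hv.v.valuationSubring) f hf a₀ h1 ?_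
  exact h2.map _

open BSDFF BSDFF.Odd in
private theorem pcomp_exists_aux {k K : Type} [Field k] [Field K] [Algebra k K] (h2 : (2 : k) ≠ 0)
    (w : Place k K)
    (hfin : Finite (IsLocalRing.ResidueField w.ring)) : ∃ L : LocK w, Complete L.toLoc := by
  set V := (Valued.v : Valuation w.ring.valuation.Completion _) with hV
  have hE : V.IsEquiv V.valuationSubring.valuation := Valuation.isEquiv_valuation_valuationSubring V
  have hle : ∀ x y, V.valuationSubring.valuation x ≤ V.valuationSubring.valuation y ↔ V x ≤ V y :=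
    fun x y => (hE x y).symm
  have hlt : ∀ x y, V.valuationSubring.valuation x < V.valuationSubring.valuation y ↔ V x < V y := by
    intro x y
    rw [← not_le, ← not_le, hle]
  have hlt1 : ∀ x, V.valuationSubring.valuation x < 1 ↔ V x < 1 := by
    intro x
    have := hlt x 1
    rwa [map_one, map_one] at this
  have hle1 : ∀ x, V.valuationSubring.valuation x ≤ 1 ↔ V x ≤ 1 := by
    intro x
    have := hle x 1
    rwa [map_one, map_one] at this
  have heq1 : ∀ x, V.valuationSubring.valuation x = 1 ↔ V x = 1 := by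
    intro x
    have h3 := hle1 x
    have h4 := hlt1 x
    constructor
    · intro h
      exact le_antisymm (h3.1 h.le) (not_lt.1 fun h5 => absurd (h4.2 h5) (by rw [h]; exact lt_irrefl _))
    · intro h
      exact le_antisymm (h3.2 h.le) (not_lt.1 fun h5 => absurd (h4.1 h5) (by rw [h]; exact lt_irrefl _))
  have hVt : ∀ a : K, V (w.toCompletion a) = w.ring.valuation a := fun a => valuation_toCompletion w a
  obtain ⟨ϖ, hϖ⟩ := IsDiscreteValuationRing.exists_irreducible w.ring
  have hϖ1 : w.ring.valuation (ϖ : K) < 1 :=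
    (w.ring.valuation_lt_one_iff _).mp ((IsLocalRing.mem_maximalIdeal _).mpr hϖ.not_isUnit)
  have hϖ0 : w.ring.valuation (ϖ : K) ≠ 0 := by
    rw [Valuation.ne_zero_iff]
    intro h0
    exact hϖ.ne_zero (Subtype.ext h0)
  set pi := w.toCompletion (ϖ : K) with hpi
  have hVpi : V pi = w.ring.valuation (ϖ : K) := hVt _
  have hpi0 : pi ≠ 0 := by
    intro h0
    rw [h0, map_zero] at hVpi
    exact hϖ0 hVpi.symm
  have hzpow : ∀ x : w.ring.valuation.Completion, x ≠ 0 → ∃ (n : ℤ) (u : w.ring.valuation.Completion),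
      V u = 1 ∧ x = pi ^ n * u := by
    intro x hx
    obtain ⟨a, ha⟩ := exists_valuation_eq w x
    have hx0 : V x ≠ 0 := (Valuation.ne_zero_iff V).mpr hx
    have ha0 : a ≠ 0 := by
      rintro rfl
      apply hx0
      exact ha.trans (map_zero _)
    obtain ⟨n, hn⟩ := pcomp_comp_value w hϖ a ha0
    refine ⟨n, (pi ^ n)⁻¹ * x, ?_, ?_⟩
    · rw [map_mul, map_inv₀, map_zpow₀, hVpi]
      have h3 : V x = w.ring.valuation (ϖ : K) ^ n := ha.trans hn
      rw [h3]
      exact inv_mul_cancel₀ (zpow_ne_zero n hϖ0)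
    · rw [mul_inv_cancel_left₀ (zpow_ne_zero n hpi0)]
  refine ⟨{
    O := V.valuationSubring
    pi := pi
    pi_ne := hpi0
    pi_gen := ?_
    exists_zpow := ?_
    hens := pcomp_hens (pcomp_adic_completion w)
    two := ?_
    fin := ?_
    mem_iff := ?_
    lt_iff := ?_
    dense := ?_ }, pcomp_adic_completion w⟩
  · intro x
    rw [hlt1]
    constructor
    · intro hx
      by_cases hx0 : x = 0
      · exact ⟨0, zero_mem _, by rw [hx0, mul_zero]⟩
      · obtain ⟨n, u, hu, hxu⟩ := hzpow x hx0
        have hVx : V x = w.ring.valuation (ϖ : K) ^ n := by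
          rw [hxu, map_mul, map_zpow₀, hVpi, hu, mul_one]
        have hn : 1 ≤ n := by
          by_contra hcon
          have h3 : n ≤ 0 := by omega
          have h4 : 1 ≤ w.ring.valuation (ϖ : K) ^ n := by
            obtain ⟨m, rfl⟩ : ∃ m : ℕ, n = -(m : ℤ) := ⟨n.natAbs, by omega⟩
            rw [zpow_neg, zpow_natCast]
            have h5 : w.ring.valuation (ϖ : K) ^ m ≤ 1 := pow_le_one' hϖ1.le m
            exact (one_le_inv₀ (zero_lt_iff.mpr (pow_ne_zero m hϖ0))).mpr h5
          rw [hVx] at hx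
          exact absurd hx (not_lt.2 h4)
        refine ⟨pi ^ (n - 1) * u, ?_, ?_⟩
        · rw [Valuation.mem_valuationSubring_iff, map_mul, map_zpow₀, hVpi, hu, mul_one]
          obtain ⟨m, hm⟩ : ∃ m : ℕ, n - 1 = (m : ℤ) := ⟨(n - 1).natAbs, by omega⟩
          rw [hm, zpow_natCast]
          exact pow_le_one' hϖ1.le m
        · rw [← mul_assoc, ← zpow_one_add₀ hpi0, add_sub_cancel, hxu]
    · rintro ⟨y, hy, rfl⟩
      rw [Valuation.mem_valuationSubring_iff] at hy
      rw [map_mul, hVpi]
      exact mul_lt_one_of_lt_of_le hϖ1 hy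
  · intro x hx
    obtain ⟨n, u, hu, hxu⟩ := hzpow x hx
    exact ⟨n, u, (heq1 u).2 hu, hxu⟩
  · rw [heq1]
    have h3 : (2 : w.ring.valuation.Completion) = w.toCompletion (algebraMap k K 2) := by
      rw [map_ofNat, map_ofNat]
    rw [h3, hVt]
    have h4 := (w.ring.valuation_le_one_iff _).mpr (w.const_mem 2)
    have h5 := (w.ring.valuation_le_one_iff _).mpr (w.const_mem (2⁻¹))
    have h6 : w.ring.valuation (algebraMap k K 2) * w.ring.valuation (algebraMap k K 2⁻¹) = 1 := by
      rw [← map_mul, ← map_mul, mul_inv_cancel₀ h2, map_one, map_one]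
    refine le_antisymm h4 (not_lt.1 fun h7 => ?_)
    exact absurd h6 (ne_of_lt (mul_lt_one_of_lt_of_le h7 h5))
  · let φ : w.ring →+* V.valuationSubring :=
      (w.toCompletion.comp w.ring.subtype).codRestrict V.valuationSubring.toSubring (fun a => by
        change V (w.toCompletion (a : K)) ≤ 1
        rw [hVt]
        exact (w.ring.valuation_le_one_iff _).mpr a.2)
    have hφ : ∀ a : w.ring, ((φ a : V.valuationSubring) : w.ring.valuation.Completion) =
        w.toCompletion (a : K) := fun a => rfl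
    have hloc : IsLocalHom φ := by
      refine ⟨fun a ha => ?_⟩
      have h3 := (V.valuationSubring.valuation_eq_one_iff _).mp ha
      rw [hφ, heq1, hVt] at h3
      exact (w.ring.valuation_eq_one_iff _).mpr h3
    refine Finite.of_surjective (IsLocalRing.ResidueField.map φ) ?_
    intro y
    obtain ⟨x, rfl⟩ := IsLocalRing.residue_surjective y
    by_cases hx : (x : w.ring.valuation.Completion) = 0
    · refine ⟨0, ?_⟩
      have : x = 0 := Subtype.ext hx
      rw [this, map_zero, map_zero]
    · obtain ⟨a, ha⟩ := close_toCompletion w _ hx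
      have hx1 : V (x : w.ring.valuation.Completion) ≤ 1 := x.2
      have hVa : V (w.toCompletion a) = V (x : w.ring.valuation.Completion) := by
        have h1 := Valuation.map_sub_eq_of_lt_left _ ha
        rw [sub_sub_cancel] at h1
        exact h1
      have hamem : a ∈ w.ring := by
        rw [← w.ring.valuation_le_one_iff, ← hVt, hVa]
        exact hx1
      refine ⟨IsLocalRing.residue w.ring ⟨a, hamem⟩, ?_⟩
      rw [IsLocalRing.ResidueField.map_residue, eq_comm, ← sub_eq_zero, ← map_sub,
        IsLocalRing.residue_eq_zero_iff, V.valuationSubring.valuation_lt_one_iff, hlt1]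
      exact lt_of_lt_of_le ha hx1
  · intro a
    rw [Valuation.mem_valuationSubring_iff, hVt]
    exact w.ring.valuation_le_one_iff a
  · intro a
    rw [hlt1, hVt]
  · intro x c hc
    obtain ⟨a, ha⟩ := pcomp_comp_dense w x c hc
    exact ⟨a, (hlt _ _).2 ha⟩

theorem exists_locK {k K : Type} [Field k] [Field K] [Algebra k K] (h2 : (2 : k) ≠ 0)
    (w : Place k K) (hfin : Finite (IsLocalRing.ResidueField w.ring)) :
    ∃ L : LocK w, Complete L.toLoc :=
  pcomp_exists_aux h2 w hfin

end Pool.Agent.GBC
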