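import Pool.Agent.Lib.GBC.P.Cen
import Pool.Agent.Lib.GBC.Q.Chi

/-!
Module P.RR of GBC. The subspaces `RR R D` of `K` for a divisor `D`, their relative dimensions.

PROOFS. `R` is a Dedekind domain with fraction field `K`; the places over `R` are the maximal ideals.
`RR_zero`: an element which is in all `w.ring` over `R` is in `R` (a Dedekind domain is the
intersection of its localizations; `IsDedekindDomain.HeightOneSpectrum.mem_integers_of_valuation_le_one`
or `exists_place` and the ideal `{s ∈ R | s x ∈ R}`: if it is not `⊤` it is contained in a maximal `P`,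
`x ∈ R_P = w.ring`, `x = a / s`, `s ∉ P`, contradiction).
`exists_le`: for a divisor `D` there is `u ≠ 0` with `ord w u = D w` at a given `w₀` and
`ord w u ≥ D w` at all `w` over `R`: first `D ≥ 0`: choose `u ∈ ∏ P_w ^ D w` and not in
`P_{w₀} ^ (D w₀ + 1) ∏_{w ≠ w₀} P_w ^ D w` (`mem_cen_pow`; for coprime ideals the product is the
intersection); in general multiply `D` by adding the divisor of an element `s ∈ R` with
`ord w s ≥ - D w` for all `w` with `D w < 0` (places outside of the support of `D`: `ord w s ≥ 0`).
`relStep`: for `w₀` over `R`, `D' = D + single w₀ 1`: `RR R D' ≤ RR R D`, and with `u₀` from `exists_le`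
the map `R → RR R D / RR R D'`, `r ↦ r u₀`, is `k`-linear with kernel `cen R w₀` (`ord w₀ (r u₀) =
ord w₀ r + D w₀`) and surjective: for `u ∈ RR R D` the quotient `u / u₀` is in `w₀.ring`, congruent to
some `r ∈ R` modulo the maximal ideal (`toRes_surjective`), so `u - r u₀ ∈ RR R D'`. So the dimension
of the quotient is `w₀.degree` (`degree_eq`; it is finite: `hfin`).
`rel`: induction on the sum of the `D' w - D w` over the `w` over `R` (places which are not over `R` do
not matter: `RR_congr`).
-/

set_option autoImplicit false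

open Polynomial

namespace Pool.Agent.GBC

open Pool.Agent.BSDP Pool.Agent.BSDFF Pool.Agent.HYP

variable {k K : Type} [Field k] [Field K] [Algebra k K] (R : Subalgebra k K)
  [IsDedekindDomain R] [IsFractionRing R K]

/-- `RR R D` as a subspace. -/
def RRS (D : Place k K →₀ ℤ) : Submodule k K where
  carrier := RR R D
  add_mem' {a b} ha hb := by
    intro w hw
    by_cases h : a + b = 0
    · exact Or.inl h
    · right
      rcases ha w hw with h1 | h1
      · subst h1
        rw [zero_add] at h ⊢
        rcases hb w hw with h2 | h2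
        · exact absurd h2 h
        · exact h2
      · rcases hb w hw with h2 | h2
        · subst h2
          rw [add_zero]
          exact h1
        · by_cases ha0 : a = 0
          · subst ha0
            rw [zero_add]
            exact h2
          · by_cases hb0 : b = 0
            · subst hb0
              rw [add_zero]
              exact h1
            · exact le_trans (le_min h1 h2) (min_le_ord_add w ha0 hb0 h)
  zero_mem' := fun w _ => Or.inl rfl
  smul_mem' c x hx := by
    intro w hw
    by_cases hc : c = 0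
    · left
      rw [hc, zero_smul]
    · rcases hx w hw with h | h
      · left
        rw [h, smul_zero]
      · by_cases hx0 : x = 0
        · left
          rw [hx0, smul_zero]
        · right
          rw [Algebra.smul_def, ord_mul w (by simpa using hc) hx0, ord_const w hc, zero_add]
          exact h

theorem RR_congr {D D' : Place k K →₀ ℤ} (h : ∀ w, Over R w → D w = D' w) :
    RRS R D = RRS R D' := by
  ext x
  constructor
  · intro hx w hw
    rw [← h w hw]
    exact hx w hw
  · intro hx w hw
    rw [h w hw]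
    exact hx w hw

private theorem RR_mem {D : Place k K →₀ ℤ} {x : K} : x ∈ RRS R D ↔
    ∀ w : Place k K, Over R w → x = 0 ∨ D w ≤ ord w x := Iff.rfl

private theorem RR_ord_nonneg {w : Place k K} (hw : Over R w) (a : R) (ha : a ≠ 0) :
    0 ≤ ord w (a : K) := by
  have ha' : (a : K) ≠ 0 := by simpa using ha
  exact (mem_ring_iff w ha').1 (hw a a.2)

private theorem RR_coe_ne {a : R} (ha : a ≠ 0) : (a : K) ≠ 0 := by simpa using ha

theorem RR_zero : RRS R 0 = R.toSubmodule := by
  ext x
  rw [RR_mem]
  constructor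
  · intro hx
    by_contra hxR
    have hxR' : x ∉ R := hxR
    let I : Ideal R :=
      { carrier := {s | (s : K) * x ∈ R}
        add_mem' := by
          intro a b ha hb
          change ((a + b : R) : K) * x ∈ R
          rw [R.coe_add, add_mul]
          exact R.add_mem ha hb
        zero_mem' := by
          change ((0 : R) : K) * x ∈ R
          rw [R.coe_zero, zero_mul]
          exact R.zero_mem
        smul_mem' := by
          intro c a ha
          change ((c * a : R) : K) * x ∈ R
          rw [R.coe_mul, mul_assoc]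
          exact R.mul_mem c.2 ha }
    have hI : I ≠ ⊤ := by
      intro h
      have h1 : (1 : R) ∈ I := by rw [h]; trivial
      have h2 : ((1 : R) : K) * x ∈ R := h1
      rw [R.coe_one, one_mul] at h2
      exact hxR' h2
    obtain ⟨P, hP, hIP⟩ := Ideal.exists_le_maximal I hI
    obtain ⟨a, s, hs, has⟩ := IsFractionRing.div_surjective (A := R) x
    have hs0 : s ≠ 0 := nonZeroDivisors.ne_zero hs
    have hs0' : (s : K) ≠ 0 := RR_coe_ne R hs0
    have hsI : s ∈ I := by
      change (s : K) * x ∈ R
      rw [← has]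
      change (s : K) * ((a : K) / (s : K)) ∈ R
      rw [mul_div_cancel₀ _ hs0']
      exact a.2
    have hP0 : P ≠ ⊥ := by
      rintro rfl
      exact hs0 ((Submodule.mem_bot R).1 (hIP hsI))
    obtain ⟨w, hw, hwP⟩ := exists_place R P hP hP0
    have hxw : x ∈ w.ring := by
      rcases hx w hw with h | h
      · rw [h]; exact w.ring.zero_mem
      · by_cases h0 : x = 0
        · rw [h0]; exact w.ring.zero_mem
        · exact (mem_ring_iff w h0).2 h
    obtain ⟨a', s', hs', hx'⟩ := (mem_ring_iff_frac R hw x).1 hxw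
    rw [hwP] at hs'
    apply hs'
    apply hIP
    change (s' : K) * x ∈ R
    have hs'0 : (s' : K) ≠ 0 := by
      apply RR_coe_ne R
      rintro rfl
      exact hs' P.zero_mem
    rw [hx', mul_div_cancel₀ _ hs'0]
    exact a'.2
  · intro hx w hw
    by_cases h0 : x = 0
    · exact Or.inl h0
    · right
      exact (mem_ring_iff w h0).1 (hw x hx)

theorem RR_anti {D D' : Place k K →₀ ℤ} (h : ∀ w, Over R w → D w ≤ D' w) :
    RRS R D' ≤ RRS R D := by
  intro x hx w hw
  rcases hx w hw with h1 | h1
  · exact Or.inl h1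
  · exact Or.inr ((h w hw).trans h1)

/-- an element of order `1` at `w` and one of order `-1` without other poles over `R` -/
private theorem RR_neg {w : Place k K} (hw : Over R w) :
    ∃ b : K, b ≠ 0 ∧ ord w b = -1 ∧ ∀ w' : Place k K, Over R w' → w' ≠ w → 0 ≤ ord w' b := by
  obtain ⟨π, hπ0, hπ⟩ := exists_ord_one R hw
  have hπ' : (π : K) ≠ 0 := RR_coe_ne R hπ0
  set P := cen R w hw with hPdef
  have hPmax : P.IsMaximal := cen_isMaximal R hw
  have hπP : π ∈ P := by
    have := (mem_cen_pow R hw 1 π).2 (Or.inr (by rw [hπ]; norm_num))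
    rwa [pow_one] at this
  have hdvd : P ∣ Ideal.span {π} := by
    rw [Ideal.dvd_iff_le, Ideal.span_le]
    simpa using hπP
  obtain ⟨J, hJ⟩ := hdvd
  have hJP : ¬ J ≤ P := by
    intro h
    have h1 : π ∈ P ^ 2 := by
      have h2 : π ∈ P * J := by
        rw [← hJ]
        exact Ideal.mem_span_singleton_self π
      rw [sq]
      exact Ideal.mul_mono_right h h2
    rcases (mem_cen_pow R hw 2 π).1 h1 with h2 | h2
    · exact hπ0 h2
    · rw [hπ] at h2
      norm_num at h2
  obtain ⟨y, hyJ, hyP⟩ := Set.not_subset.1 hJP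
  have hy0 : y ≠ 0 := by
    rintro rfl
    exact hyP P.zero_mem
  have hy' : (y : K) ≠ 0 := RR_coe_ne R hy0
  have hyord : ord w (y : K) = 0 := by
    have h1 := RR_ord_nonneg R hw y hy0
    by_contra h2
    apply hyP
    have h3 := (mem_cen_pow R hw 1 y).2 (Or.inr (by
      push_cast
      omega))
    rw [pow_one] at h3
    exact h3
  refine ⟨(y : K) / π, div_ne_zero hy' hπ', ?_, ?_⟩
  · rw [ord_div w hy' hπ', hyord, hπ]
    norm_num
  · intro w' hw' hne
    have hP'max : (cen R w' hw').IsMaximal := cen_isMaximal R hw'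
    have hnle : ¬ P ≤ cen R w' hw' := by
      intro h
      have h1 := hPmax.eq_of_le hP'max.ne_top h
      exact hne (cen_injective R hw' hw h1.symm)
    obtain ⟨c, hcP, hcP'⟩ := Set.not_subset.1 hnle
    have hc0 : c ≠ 0 := by
      rintro rfl
      exact hcP' (cen R w' hw').zero_mem
    have hc' : (c : K) ≠ 0 := RR_coe_ne R hc0
    have hcord : ord w' (c : K) = 0 := by
      have h1 := RR_ord_nonneg R hw' c hc0
      by_contra h2
      apply hcP'
      have h3 := (mem_cen_pow R hw' 1 c).2 (Or.inr (by
        push_cast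
        omega))
      rw [pow_one] at h3
      exact h3
    have hcy : c * y ∈ Ideal.span {π} := by
      rw [hJ]
      exact Ideal.mul_mem_mul hcP hyJ
    obtain ⟨z, hz⟩ := Ideal.mem_span_singleton'.1 hcy
    have hz0 : z ≠ 0 := by
      rintro rfl
      rw [zero_mul] at hz
      exact (mul_ne_zero hc0 hy0) hz.symm
    have hz' : (z : K) ≠ 0 := RR_coe_ne R hz0
    have hzK : (z : K) * π = (c : K) * y := by
      have := congrArg (fun r : R => (r : K)) hz
      simpa using this
    have e1 : ord w' (z : K) + ord w' (π : K) = ord w' (c : K) + ord w' (y : K) := by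
      rw [← ord_mul w' hz' hπ', ← ord_mul w' hc' hy', hzK]
    have e2 := RR_ord_nonneg R hw' z hz0
    rw [ord_div w' hy' hπ']
    omega

/-- an element of given order at `w` without other poles over `R` -/
private theorem RR_at {w : Place k K} (hw : Over R w) (n : ℤ) :
    ∃ b : K, b ≠ 0 ∧ ord w b = n ∧ ∀ w' : Place k K, Over R w' → w' ≠ w → 0 ≤ ord w' b := by
  rcases le_total 0 n with hn | hn
  · obtain ⟨π, hπ0, hπ⟩ := exists_ord_one R hw
    have hπ' : (π : K) ≠ 0 := RR_coe_ne R hπ0
    refine ⟨(π : K) ^ n.toNat, pow_ne_zero _ hπ', ?_, ?_⟩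
    · rw [ord_pow w hπ', hπ, Int.toNat_of_nonneg hn, mul_one]
    · intro w' hw' _
      rw [ord_pow w' hπ']
      exact mul_nonneg (by positivity) (RR_ord_nonneg R hw' π hπ0)
  · obtain ⟨b, hb0, hb, hb'⟩ := RR_neg R hw
    refine ⟨b ^ (-n).toNat, pow_ne_zero _ hb0, ?_, ?_⟩
    · rw [ord_pow w hb0, hb, Int.toNat_of_nonneg (by omega)]
      ring
    · intro w' hw' hne
      rw [ord_pow w' hb0]
      exact mul_nonneg (by positivity) (hb' w' hw' hne)

/-- an element of order `0` at `w₀`, of order at least `n` at `w`, without poles over `R` -/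
private theorem RR_sep {w w₀ : Place k K} (hw : Over R w) (h₀ : Over R w₀) (hne : w ≠ w₀)
    (n : ℕ) : ∃ b : K, b ≠ 0 ∧ ord w₀ b = 0 ∧ (n : ℤ) ≤ ord w b ∧
      ∀ w' : Place k K, Over R w' → 0 ≤ ord w' b := by
  have hPmax : (cen R w hw).IsMaximal := cen_isMaximal R hw
  have hP'max : (cen R w₀ h₀).IsMaximal := cen_isMaximal R h₀
  have hnle : ¬ cen R w hw ≤ cen R w₀ h₀ := by
    intro h
    have h1 := hPmax.eq_of_le hP'max.ne_top h
    exact hne (cen_injective R hw h₀ h1)
  obtain ⟨c, hcP, hcP'⟩ := Set.not_subset.1 hnle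
  have hc0 : c ≠ 0 := by
    rintro rfl
    exact hcP' (cen R w₀ h₀).zero_mem
  have hc' : (c : K) ≠ 0 := RR_coe_ne R hc0
  have hcord : ord w₀ (c : K) = 0 := by
    have h1 := RR_ord_nonneg R h₀ c hc0
    by_contra h2
    apply hcP'
    have h3 := (mem_cen_pow R h₀ 1 c).2 (Or.inr (by
      push_cast
      omega))
    rw [pow_one] at h3
    exact h3
  have hcw : 1 ≤ ord w (c : K) := by
    have h1 : c ∈ cen R w hw ^ 1 := by rw [pow_one]; exact hcP
    rcases (mem_cen_pow R hw 1 c).1 h1 with h2 | h2
    · exact absurd h2 hc0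
    · exact_mod_cast h2
  refine ⟨(c : K) ^ n, pow_ne_zero _ hc', ?_, ?_, ?_⟩
  · rw [ord_pow w₀ hc', hcord, mul_zero]
  · rw [ord_pow w hc']
    nlinarith
  · intro w' hw'
    rw [ord_pow w' hc']
    exact mul_nonneg (by positivity) (RR_ord_nonneg R hw' c hc0)

/-- the same for a finite set of places -/
private theorem RR_sepS (D : Place k K →₀ ℤ) {w₀ : Place k K} (h₀ : Over R w₀)
    (S : Finset (Place k K)) : ∃ b : K, b ≠ 0 ∧ ord w₀ b = 0 ∧
      (∀ w ∈ S, Over R w → w ≠ w₀ → D w ≤ ord w b) ∧
      ∀ w' : Place k K, Over R w' → 0 ≤ ord w' b := by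
  classical
  induction S using Finset.induction_on with
  | empty => exact ⟨1, one_ne_zero, ord_one w₀, by simp, fun w' _ => by rw [ord_one]⟩
  | insert w S hwS ih =>
    obtain ⟨b, hb0, hb1, hb2, hb3⟩ := ih
    by_cases hc : Over R w ∧ w ≠ w₀
    · obtain ⟨c, hc0, hc1, hc2, hc3⟩ := RR_sep R hc.1 h₀ hc.2 (D w).toNat
      refine ⟨b * c, mul_ne_zero hb0 hc0, ?_, ?_, ?_⟩
      · rw [ord_mul w₀ hb0 hc0, hb1, hc1, add_zero]
      · intro w' hw' hwR hne
        rw [ord_mul w' hb0 hc0]
        rcases Finset.mem_insert.1 hw' with h | h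
        · subst h
          have h1 := hb3 w' hwR
          have h2 := Int.self_le_toNat (D w')
          omega
        · have h1 := hb2 w' h hwR hne
          have h2 := hc3 w' hwR
          omega
      · intro w' hw'
        rw [ord_mul w' hb0 hc0]
        exact add_nonneg (hb3 w' hw') (hc3 w' hw')
    · refine ⟨b, hb0, hb1, ?_, hb3⟩
      intro w' hw' hwR hne
      rcases Finset.mem_insert.1 hw' with h | h
      · subst h
        exact absurd ⟨hwR, hne⟩ hc
      · exact hb2 w' h hwR hne

theorem exists_RR (D : Place k K →₀ ℤ) (w₀ : Place k K) (h₀ : Over R w₀) :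
    ∃ u : K, u ≠ 0 ∧ u ∈ RR R D ∧ ord w₀ u = D w₀ := by
  obtain ⟨b, hb0, hb1, hb2⟩ := RR_at R h₀ (D w₀)
  obtain ⟨c, hc0, hc1, hc2, hc3⟩ := RR_sepS R D h₀ D.support
  refine ⟨b * c, mul_ne_zero hb0 hc0, ?_, ?_⟩
  · intro w hw
    right
    rw [ord_mul w hb0 hc0]
    by_cases hne : w = w₀
    · subst hne
      have := hc3 w hw
      omega
    · have h1 := hb2 w hw hne
      by_cases hD : w ∈ D.support
      · have h2 := hc2 w hD hw hne
        omega
      · rw [Finsupp.notMem_support_iff] at hD
        have h2 := hc3 w hw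
        omega
  · rw [ord_mul w₀ hb0 hc0, hb1, hc1, add_zero]

/-! relative dimensions -/

private theorem RR_relmk {P P' : Submodule k K} {x : P'} :
    (P.submoduleOf P').mkQ x = 0 ↔ (x : K) ∈ P := by
  rw [Submodule.mkQ_apply, Submodule.Quotient.mk_eq_zero]
  exact Iff.rfl

/-- chain rule for relative dimensions -/
private theorem RR_chain {A B C : Submodule k K} (hAB : A ≤ B) (hBC : B ≤ C)
    (h1 : Module.Finite k (Rel A B)) (h2 : Module.Finite k (Rel B C)) :
    Module.Finite k (Rel A C) ∧
      Module.finrank k (Rel A C) = Module.finrank k (Rel A B) + Module.finrank k (Rel B C) := by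
  let f : Rel A C →ₗ[k] Rel B C :=
    Submodule.factor (show A.submoduleOf C ≤ B.submoduleOf C from fun x hx => hAB hx)
  let g : Rel A B →ₗ[k] Rel A C :=
    Submodule.mapQ _ _ (Submodule.inclusion hBC) (fun x hx => hx)
  have hf : ∀ x : C, f ((A.submoduleOf C).mkQ x) = (B.submoduleOf C).mkQ x := fun x => rfl
  have hg : ∀ x : B, g ((A.submoduleOf B).mkQ x) =
      (A.submoduleOf C).mkQ (Submodule.inclusion hBC x) := fun x => rfl
  have hfs : Function.Surjective f := by
    intro y
    obtain ⟨x, rfl⟩ := Submodule.mkQ_surjective _ y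
    exact ⟨_, hf x⟩
  have hgi : Function.Injective g := by
    rw [← LinearMap.ker_eq_bot, LinearMap.ker_eq_bot']
    intro y hy
    obtain ⟨x, rfl⟩ := Submodule.mkQ_surjective _ y
    rw [hg, RR_relmk] at hy
    rw [RR_relmk]
    exact hy
  have hker : LinearMap.ker f = LinearMap.range g := by
    ext y
    obtain ⟨x, rfl⟩ := Submodule.mkQ_surjective _ y
    rw [LinearMap.mem_ker, hf, RR_relmk, LinearMap.mem_range]
    constructor
    · intro hx
      exact ⟨(A.submoduleOf B).mkQ ⟨x, hx⟩, by rw [hg]; rfl⟩
    · rintro ⟨z, hz⟩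
      obtain ⟨b, rfl⟩ := Submodule.mkQ_surjective _ z
      rw [hg, ← sub_eq_zero, ← map_sub, RR_relmk] at hz
      have h3 : (x : K) = b - ((b : K) - x) := by ring
      rw [h3]
      exact B.sub_mem b.2 (hAB hz)
  have hfin : Module.Finite k (Rel A C) := by
    have h3 : Module.Finite k (LinearMap.ker f) := by
      rw [hker]
      infer_instance
    have h4 : Module.Finite k (Rel A C ⧸ LinearMap.ker f) :=
      Module.Finite.equiv (f.quotKerEquivOfSurjective hfs).symm
    exact Module.Finite.of_submodule_quotient (LinearMap.ker f)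
  refine ⟨hfin, ?_⟩
  have e1 := LinearMap.finrank_range_add_finrank_ker f
  rw [hker, LinearMap.finrank_range_of_inj hgi, LinearMap.range_eq_top.2 hfs, finrank_top] at e1
  omega

private theorem RR_self (A : Submodule k K) :
    Module.Finite k (Rel A A) ∧ Module.finrank k (Rel A A) = 0 := by
  have : Subsingleton (Rel A A) := by
    rw [Submodule.Quotient.subsingleton_iff, Submodule.submoduleOf_self]
  exact ⟨inferInstance, Module.finrank_zero_of_subsingleton⟩

private theorem RR_degOver_add (D E : Place k K →₀ ℤ) :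
    degOver R (D + E) = degOver R D + degOver R E := by
  classical
  unfold degOver
  rw [Finsupp.sum_add_index']
  · intro w
    split_ifs <;> simp
  · intro w a b
    split_ifs
    · ring
    · simp

private theorem RR_degOver_single (w : Place k K) (n : ℤ) :
    degOver R (Finsupp.single w n) =
      open Classical in if Over R w then (w.degree : ℤ) * n else 0 := by
  classical
  unfold degOver
  rw [Finsupp.sum_single_index]
  split_ifs <;> simp

private theorem RR_degOver_zero {D : Place k K →₀ ℤ} (h : ∀ w, Over R w → D w = 0) :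
    degOver R D = 0 := by
  classical
  unfold degOver
  apply Finset.sum_eq_zero
  intro w _
  change (if Over R w then (w.degree : ℤ) * D w else 0) = 0
  by_cases hw : Over R w
  · rw [if_pos hw, h w hw, mul_zero]
  · rw [if_neg hw]

private theorem RR_degOver_congr {D D' : Place k K →₀ ℤ} (h : ∀ w, Over R w → D w = D' w) :
    degOver R D = degOver R D' := by
  have h1 : D = D' + (D - D') := by abel
  rw [h1, RR_degOver_add, RR_degOver_zero R (D := D - D') (fun w hw => by
    rw [Finsupp.sub_apply, h w hw, sub_self]), add_zero]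

private theorem RR_step (hfin : ∀ I : Ideal R, I ≠ ⊥ → Module.Finite k (R ⧸ I))
    (D : Place k K →₀ ℤ) {w₀ : Place k K} (h₀ : Over R w₀) :
    Module.Finite k (Rel (RRS R (D + Finsupp.single w₀ 1)) (RRS R D)) ∧
      Module.finrank k (Rel (RRS R (D + Finsupp.single w₀ 1)) (RRS R D)) = w₀.degree := by
  classical
  obtain ⟨u₀, hu0, huD, hu⟩ := exists_RR R D w₀ h₀
  have hD' : ∀ w, w ≠ w₀ → (D + Finsupp.single w₀ 1 : Place k K →₀ ℤ) w = D w := by
    intro w hw
    rw [Finsupp.add_apply, Finsupp.single_eq_of_ne hw, add_zero]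
  have hD0 : (D + Finsupp.single w₀ 1 : Place k K →₀ ℤ) w₀ = D w₀ + 1 := by
    rw [Finsupp.add_apply, Finsupp.single_eq_same]
  have hmem : ∀ r : R, (r : K) * u₀ ∈ RRS R D := by
    intro r w hw
    by_cases hr : r = 0
    · left
      rw [hr, R.coe_zero, zero_mul]
    · right
      have hr' := RR_coe_ne R hr
      rw [ord_mul w hr' hu0]
      have h1 := RR_ord_nonneg R hw r hr
      rcases huD w hw with h2 | h2
      · exact absurd h2 hu0
      · omega
  let φ : R →ₗ[k] Rel (RRS R (D + Finsupp.single w₀ 1)) (RRS R D) :=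
    { toFun := fun r => ((RRS R (D + Finsupp.single w₀ 1)).submoduleOf (RRS R D)).mkQ
        ⟨(r : K) * u₀, hmem r⟩
      map_add' := by
        intro a b
        rw [← map_add]
        congr 1
        apply Subtype.ext
        change ((a + b : R) : K) * u₀ = (a : K) * u₀ + (b : K) * u₀
        rw [R.coe_add, add_mul]
      map_smul' := by
        intro c a
        rw [RingHom.id_apply, ← map_smul]
        congr 1
        apply Subtype.ext
        change ((c • a : R) : K) * u₀ = c • ((a : K) * u₀)
        rw [R.coe_smul, smul_mul_assoc] }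
  have hφ : ∀ r : R, φ r = 0 ↔ r ∈ cen R w₀ h₀ := by
    intro r
    change ((RRS R (D + Finsupp.single w₀ 1)).submoduleOf (RRS R D)).mkQ
        ⟨(r : K) * u₀, hmem r⟩ = 0 ↔ _
    rw [RR_relmk]
    have hc := mem_cen_pow R h₀ 1 r
    rw [pow_one] at hc
    rw [hc]
    constructor
    · intro h
      by_cases hr : r = 0
      · exact Or.inl hr
      · right
        have hr' := RR_coe_ne R hr
        rcases h w₀ h₀ with h1 | h1
        · exact absurd h1 (mul_ne_zero hr' hu0)
        · change (D + Finsupp.single w₀ 1 : Place k K →₀ ℤ) w₀ ≤ ord w₀ ((r : K) * u₀) at h1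
          rw [hD0, ord_mul w₀ hr' hu0, hu] at h1
          push_cast
          omega
    · intro h w hw
      by_cases hr : r = 0
      · left
        change (r : K) * u₀ = 0
        rw [hr, R.coe_zero, zero_mul]
      · right
        have hr' := RR_coe_ne R hr
        change (D + Finsupp.single w₀ 1 : Place k K →₀ ℤ) w ≤ ord w ((r : K) * u₀)
        by_cases hww : w = w₀
        · subst hww
          rw [hD0, ord_mul w hr' hu0, hu]
          rcases h with h | h
          · exact absurd h hr
          · push_cast at h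
            omega
        · rw [hD' w hww]
          rcases hmem r w hw with h1 | h1
          · exact absurd h1 (mul_ne_zero hr' hu0)
          · exact h1
  have hsurj : Function.Surjective φ := by
    intro y
    obtain ⟨⟨v, hv⟩, rfl⟩ := Submodule.mkQ_surjective _ y
    by_cases hv0 : v = 0
    · subst hv0
      refine ⟨0, ?_⟩
      rw [map_zero]
      symm
      rw [RR_relmk]
      exact Submodule.zero_mem _
    have hx0 : v / u₀ ≠ 0 := div_ne_zero hv0 hu0
    have hxr : v / u₀ ∈ w₀.ring := by
      rw [mem_ring_iff w₀ hx0, ord_div w₀ hv0 hu0, hu]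
      rcases hv w₀ h₀ with h1 | h1
      · exact absurd h1 hv0
      · omega
    obtain ⟨r, hr⟩ := toRes_surjective R h₀ (IsLocalRing.residue w₀.ring ⟨v / u₀, hxr⟩)
    have hr' : IsLocalRing.residue w₀.ring (⟨v / u₀, hxr⟩ - toRing R w₀ h₀ r) = 0 := by
      rw [map_sub, ← hr]
      exact sub_self _
    rw [IsLocalRing.residue_eq_zero_iff] at hr'
    have hval : w₀.ring.valuation (v / u₀ - (r : K)) < 1 :=
      (w₀.ring.valuation_lt_one_iff _).1 hr'
    refine ⟨r, ?_⟩
    change ((RRS R (D + Finsupp.single w₀ 1)).submoduleOf (RRS R D)).mkQ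
        ⟨(r : K) * u₀, hmem r⟩ = _
    rw [← sub_eq_zero, ← map_sub, RR_relmk]
    change (r : K) * u₀ - v ∈ RRS R (D + Finsupp.single w₀ 1)
    have hdiff : (r : K) * u₀ - v ∈ RRS R D := Submodule.sub_mem _ (hmem r) hv
    intro w hw
    by_cases hz : (r : K) * u₀ - v = 0
    · exact Or.inl hz
    · right
      by_cases hww : w = w₀
      · subst hww
        rw [hD0]
        have hz' : v / u₀ - (r : K) ≠ 0 := by
          intro h
          apply hz
          have h1 : v / u₀ = r := sub_eq_zero.1 h
          rw [← h1, div_mul_cancel₀ _ hu0, sub_self]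
        have e1 : (r : K) * u₀ - v = -((v / u₀ - (r : K)) * u₀) := by
          rw [sub_mul, div_mul_cancel₀ _ hu0]
          ring
        rw [e1, ord_neg, ord_mul w hz' hu0, hu]
        have := (val_lt_one_iff w hz').1 hval
        omega
      · rw [hD' w hww]
        rcases hdiff w hw with h1 | h1
        · exact absurd h1 hz
        · exact h1
  have hker : LinearMap.ker φ = (cen R w₀ h₀).restrictScalars k := by
    ext r
    rw [LinearMap.mem_ker, hφ]
    rfl
  have e : (R ⧸ cen R w₀ h₀) ≃ₗ[k] Rel (RRS R (D + Finsupp.single w₀ 1)) (RRS R D) :=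
    (Submodule.quotEquivOfEq _ _ hker.symm).trans (φ.quotKerEquivOfSurjective hsurj)
  have hf := hfin _ (cen_ne_bot R h₀)
  exact ⟨Module.Finite.equiv e, by rw [← e.finrank_eq, degree_eq R h₀]⟩

private theorem RR_nat (hfin : ∀ I : Ideal R, I ≠ ⊥ → Module.Finite k (R ⧸ I))
    (E : Place k K →₀ ℕ) : ∀ D : Place k K →₀ ℤ,
    Module.Finite k (Rel (RRS R (D + E.mapRange (fun n : ℕ => (n : ℤ)) rfl)) (RRS R D)) ∧
      (Module.finrank k (Rel (RRS R (D + E.mapRange (fun n : ℕ => (n : ℤ)) rfl)) (RRS R D)) : ℤ) =
        degOver R (D + E.mapRange (fun n : ℕ => (n : ℤ)) rfl) - degOver R D := by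
  classical
  have hle : ∀ (D : Place k K →₀ ℤ) (E : Place k K →₀ ℕ),
      RRS R (D + E.mapRange (fun n : ℕ => (n : ℤ)) rfl) ≤ RRS R D := by
    intro D E
    apply RR_anti
    intro w _
    rw [Finsupp.add_apply, Finsupp.mapRange_apply]
    omega
  induction E using Finsupp.induction_linear with
  | zero =>
    intro D
    rw [Finsupp.mapRange_zero, add_zero, sub_self]
    have := RR_self (RRS R D)
    exact ⟨this.1, by rw [this.2]; rfl⟩
  | add f g hf hg =>
    intro D
    have e1 : D + (f + g).mapRange (fun n : ℕ => (n : ℤ)) rfl =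
        (D + f.mapRange (fun n : ℕ => (n : ℤ)) rfl) + g.mapRange (fun n : ℕ => (n : ℤ)) rfl := by
      ext w
      simp [add_assoc]
    rw [e1]
    obtain ⟨a1, a2⟩ := hf D
    obtain ⟨b1, b2⟩ := hg (D + f.mapRange (fun n : ℕ => (n : ℤ)) rfl)
    obtain ⟨c1, c2⟩ := RR_chain (hle _ g) (hle D f) b1 a1
    refine ⟨c1, ?_⟩
    rw [c2]
    push_cast
    rw [a2, b2]
    ring
  | single w n =>
    intro D
    by_cases hw : Over R w
    · induction n with
      | zero =>
        rw [Finsupp.single_zero, Finsupp.mapRange_zero, add_zero, sub_self]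
        have := RR_self (RRS R D)
        exact ⟨this.1, by rw [this.2]; rfl⟩
      | succ n ih =>
        have e1 : D + (Finsupp.single w (n + 1)).mapRange (fun n : ℕ => (n : ℤ)) rfl =
            (D + (Finsupp.single w n).mapRange (fun n : ℕ => (n : ℤ)) rfl) +
              Finsupp.single w 1 := by
          ext w'
          simp only [Finsupp.mapRange_single, Finsupp.add_apply, Finsupp.single_apply]
          split_ifs
          · push_cast
            ring
          · ring
        rw [e1]
        obtain ⟨a1, a2⟩ := ih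
        obtain ⟨b1, b2⟩ := RR_step R hfin
          (D + (Finsupp.single w n).mapRange (fun n : ℕ => (n : ℤ)) rfl) hw
        have hle' : RRS R ((D + (Finsupp.single w n).mapRange (fun n : ℕ => (n : ℤ)) rfl) +
            Finsupp.single w 1) ≤
            RRS R (D + (Finsupp.single w n).mapRange (fun n : ℕ => (n : ℤ)) rfl) := by
          apply RR_anti
          intro w' _
          rw [Finsupp.add_apply (_ + _)]
          have : (0 : ℤ) ≤ (Finsupp.single w (1 : ℤ)) w' := by
            rw [Finsupp.single_apply]
            split_ifs <;> omega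
          omega
        obtain ⟨c1, c2⟩ := RR_chain hle' (hle D _) b1 a1
        refine ⟨c1, ?_⟩
        rw [c2, RR_degOver_add R (_ + _), RR_degOver_single, if_pos hw]
        push_cast
        rw [a2, b2]
        ring
    · have hc : ∀ w', Over R w' →
          (D + (Finsupp.single w n).mapRange (fun n : ℕ => (n : ℤ)) rfl) w' = D w' := by
        intro w' hw'
        have hne : w' ≠ w := by
          rintro rfl
          exact hw hw'
        rw [Finsupp.add_apply, Finsupp.mapRange_apply, Finsupp.single_eq_of_ne hne]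
        simp
      rw [RR_congr R hc, RR_degOver_congr R hc, sub_self]
      have := RR_self (RRS R D)
      exact ⟨this.1, by rw [this.2]; rfl⟩

theorem rel (hfin : ∀ I : Ideal R, I ≠ ⊥ → Module.Finite k (R ⧸ I)) {D D' : Place k K →₀ ℤ}
    (h : ∀ w, Over R w → D w ≤ D' w) :
    Module.Finite k (Rel (RRS R D') (RRS R D)) ∧
      (Module.finrank k (Rel (RRS R D') (RRS R D)) : ℤ) = degOver R D' - degOver R D := by
  classical
  let E : Place k K →₀ ℕ := (D' - D).mapRange Int.toNat rfl
  have hE : ∀ w, Over R w → D' w = (D + E.mapRange (fun n : ℕ => (n : ℤ)) rfl) w := by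
    intro w hw
    have h1 := h w hw
    rw [Finsupp.add_apply, Finsupp.mapRange_apply, Finsupp.mapRange_apply, Finsupp.sub_apply,
      Int.toNat_of_nonneg (by omega)]
    ring
  rw [RR_congr R hE, RR_degOver_congr R hE]
  exact RR_nat R hfin E D

end Pool.Agent.GBC
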