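import Pool.Agent.Lib.GBC.P.RR
import Pool.Agent.Lib.GBC.Q.Deg

/-!
Module P.Riem of GBC. Infinite places, the divisor of the poles of `t`, the inequality of Riemann.

PROOFS. `not_both`: `w` over `B`: the centre on `B` is a maximal ideal (`B` is a PID and `K = Frac B` by
`G.exh`; if the centre were `0` then `w.ring = K`), so it contains `t⁻¹` (`G.rad`), so `t ∉ w.ring` and
`A` is not contained in `w.ring`.
`G.dedB`, `G.fracB`: a PID is a Dedekind domain; `K` is the fraction field of `B` by `G.exh` (`x =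
(t⁻¹ ^ n x) / t⁻¹ ^ n`). `finB`: for `0 ≠ β ∈ B` there is `n` with `t⁻¹ ^ n ∈ (β)` (`β⁻¹ ∈ M n` by `G.exh`),
so `B / (β)` is a quotient of `B / (t⁻¹ ^ n)`, of dimension `d n` (`fin_M`).
`tDiv`: the places over `B` are finitely many (they are the maximal ideals of `B`, which contain `t⁻¹`;
`B / (t⁻¹)` is finite dimensional, Artinian, so it has finitely many maximal ideals); let
`T w = - ord w t` at these places (`> 0`), `T w = 0` at the others. `M_eq`: `x ∈ M y ↔ t ^ (-y) x ∈ B`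
`↔ ∀ w over B, ord w x ≥ y * ord w t` (`RR_zero` for `B`). `degOver B T = d`: `rel` for `D = 0`, `D' = T`:
`RRS B T = t⁻¹ B = M (-1)`, `finrank_M`. `degD T = degOver B T`: `T w = 0` at the places over `A`, and
every place is over `A` or `B` (`G.places`).
`riemann`: `P = RRS A D`, `Q = RRS B D`. `chi_left` (and `chi_comm`) with `rel` for `A` and for `B`,
comparing `D` with `0` (via the divisor `min (D, 0)`): `chi P Q = chi A B - degOver A D - degOver B D`,
and `degOver A D + degOver B D = degD D` (`G.places`, `not_both`). `RR A D ∩ RR B D` is the set in the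
theorem; `chi_le`.
-/

set_option autoImplicit false

open Polynomial

namespace Pool.Agent.GBC

open Pool.Agent.BSDP Pool.Agent.BSDFF Pool.Agent.HYP

variable {k K : Type} [Field k] [Field K] [Algebra k K] (G : Geo k K)

theorem Geo.dedB : IsDedekindDomain G.B := IsPrincipalIdealRing.isDedekindDomain G.B

theorem Geo.fracB : IsFractionRing G.B K := by
  apply IsFractionRing.of_field
  intro z
  obtain ⟨n, hn⟩ := G.exh z
  refine ⟨⟨_, hn⟩, ⟨G.t⁻¹ ^ n, pow_mem G.inv_mem n⟩, ?_⟩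
  change z = G.t⁻¹ ^ n * z / G.t⁻¹ ^ n
  rw [mul_div_cancel_left₀]
  exact pow_ne_zero _ (inv_ne_zero G.t_ne)

theorem Geo.fin_quotB (I : Ideal G.B) (hI : I ≠ ⊥) : Module.Finite k (G.B ⧸ I) := by
  obtain ⟨β, hβI, hβ⟩ := Submodule.exists_mem_ne_zero_of_ne_bot hI
  have hβ' : (β : K) ≠ 0 := fun h => hβ (Subtype.ext h)
  obtain ⟨n, hn⟩ := G.exh (β : K)⁻¹
  have h1 : (⟨G.t⁻¹ ^ n, pow_mem G.inv_mem n⟩ : G.B) ∈ I := by
    have e : (⟨G.t⁻¹ ^ n, pow_mem G.inv_mem n⟩ : G.B) = ⟨_, hn⟩ * β := by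
      apply Subtype.ext
      change G.t⁻¹ ^ n = G.t⁻¹ ^ n * (β : K)⁻¹ * β
      rw [mul_assoc, inv_mul_cancel₀ hβ', mul_one]
    rw [e]
    exact I.mul_mem_left _ hβI
  have h0 : -(n : ℤ) ≤ 0 := by omega
  have hfin := G.fin_M h0
  let f : G.M 0 →ₗ[k] (G.B ⧸ I) :=
    { toFun := fun x => Ideal.Quotient.mk I ⟨(x : K), (G.mem_M_zero _).1 x.2⟩
      map_add' := fun a b => by
        rw [← map_add]
        rfl
      map_smul' := fun c a => by
        have h2 : (⟨((c • a : G.M 0) : K), (G.mem_M_zero _).1 (c • a).2⟩ : G.B) =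
          c • (⟨(a : K), (G.mem_M_zero _).1 a.2⟩ : G.B) := rfl
        rw [h2]
        rfl }
  have hf : ∀ x : G.M 0, f x = Ideal.Quotient.mk I ⟨(x : K), (G.mem_M_zero _).1 x.2⟩ :=
    fun _ => rfl
  have hs : Function.Surjective f := by
    intro z
    obtain ⟨b, rfl⟩ := Ideal.Quotient.mk_surjective z
    exact ⟨⟨(b : K), (G.mem_M_zero _).2 b.2⟩, rfl⟩
  have hle : (G.M (-(n : ℤ))).submoduleOf (G.M 0) ≤ LinearMap.ker f := by
    intro x hx
    have hx1 : G.t ^ (-(-(n : ℤ))) * (x : K) ∈ G.B := hx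
    rw [LinearMap.mem_ker, hf, Ideal.Quotient.eq_zero_iff_mem]
    have e : (⟨(x : K), (G.mem_M_zero _).1 x.2⟩ : G.B) =
        ⟨_, hx1⟩ * ⟨G.t⁻¹ ^ n, pow_mem G.inv_mem n⟩ := by
      apply Subtype.ext
      change (x : K) = G.t ^ (-(-(n : ℤ))) * (x : K) * G.t⁻¹ ^ n
      rw [neg_neg, zpow_natCast, mul_comm (G.t ^ n), mul_assoc, ← mul_pow,
        mul_inv_cancel₀ G.t_ne, one_pow, mul_one]
    rw [e]
    exact I.mul_mem_left _ h1
  refine Module.Finite.of_surjective (Submodule.liftQ _ f hle) ?_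
  intro z
  obtain ⟨x, hx⟩ := hs z
  exact ⟨Submodule.Quotient.mk x, hx⟩

private theorem riem_val {w : Place k K} (hB : Over G.B w) : w.ring.valuation G.t⁻¹ < 1 := by
  have := G.dedB
  have := G.fracB
  have h1 := G.rad _ (cen_isMaximal G.B hB)
  exact (mem_cen G.B hB _).1 h1

theorem Geo.ord_t_neg {w : Place k K} (hB : Over G.B w) : ord w G.t < 0 := by
  have h1 := riem_val G hB
  rw [val_lt_one_iff w (inv_ne_zero G.t_ne), ord_inv w G.t_ne] at h1
  omega

theorem Geo.not_both (w : Place k K) (hA : Over G.A w) (hB : Over G.B w) : False := by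
  have h1 := G.ord_t_neg hB
  have h2 := (mem_ring_iff w G.t_ne).1 (hA _ G.t_mem)
  omega

private theorem riem_cen_ti {w : Place k K} (hB : Over G.B w) :
    (⟨G.t⁻¹, G.inv_mem⟩ : G.B) ∈ cen G.B w hB := by
  have := G.dedB
  have := G.fracB
  exact G.rad _ (cen_isMaximal G.B hB)

theorem Geo.finite_inf : {w : Place k K | Over G.B w}.Finite := by
  classical
  have := G.dedB
  have := G.fracB
  have hI : Ideal.span {(⟨G.t⁻¹, G.inv_mem⟩ : G.B)} ≠ 0 := by
    rw [Ne, Ideal.zero_eq_bot, Ideal.span_singleton_eq_bot]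
    intro h
    exact inv_ne_zero G.t_ne (congrArg Subtype.val h)
  have hfin := Ideal.finite_factors hI
  rw [← Set.finite_coe_iff] at hfin ⊢
  let F : {w : Place k K | Over G.B w} →
      {v : IsDedekindDomain.HeightOneSpectrum G.B |
        v.asIdeal ∣ Ideal.span {(⟨G.t⁻¹, G.inv_mem⟩ : G.B)}} :=
    fun w => ⟨⟨cen G.B w.1 w.2, (cen_isMaximal G.B w.2).isPrime, cen_ne_bot G.B w.2⟩, by
      change cen G.B w.1 w.2 ∣ _
      rw [Ideal.dvd_iff_le, Ideal.span_singleton_le_iff_mem]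
      exact riem_cen_ti G w.2⟩
  refine Finite.of_injective F ?_
  intro w w' h
  have h1 : cen G.B w.1 w.2 = cen G.B w'.1 w'.2 :=
    congrArg (fun v => (v.1 : IsDedekindDomain.HeightOneSpectrum G.B).asIdeal) h
  exact Subtype.ext (cen_injective G.B w.2 w'.2 h1)

theorem Geo.mem_M_iff (y : ℤ) {x : K} (hx : x ≠ 0) :
    x ∈ G.M y ↔ ∀ w : Place k K, Over G.B w → y * ord w G.t ≤ ord w x := by
  have := G.dedB
  have := G.fracB
  have h1 : G.t ^ (-y) ≠ 0 := zpow_ne_zero _ G.t_ne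
  have h2 : G.t ^ (-y) * x ≠ 0 := mul_ne_zero h1 hx
  have h3 : x ∈ G.M y ↔ G.t ^ (-y) * x ∈ RRS G.B 0 := by
    rw [RR_zero G.B, G.mem_M]
    rfl
  rw [h3]
  have h4 : G.t ^ (-y) * x ∈ RRS G.B 0 ↔ ∀ w : Place k K, Over G.B w →
      G.t ^ (-y) * x = 0 ∨ (0 : Place k K →₀ ℤ) w ≤ ord w (G.t ^ (-y) * x) := Iff.rfl
  rw [h4]
  refine forall_congr' fun w => forall_congr' fun _ => ?_
  rw [ord_mul w h1 hx, ord_zpow w G.t_ne, Finsupp.zero_apply]
  constructor
  · rintro (h | h)
    · exact absurd h h2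
    · linarith
  · intro h
    right
    linarith

/-- the divisor of the poles of `t` -/
private theorem riem_tDiv : ∃ T : Place k K →₀ ℤ, (∀ w, Over G.B w → T w = -ord w G.t) ∧
    (∀ w, ¬ Over G.B w → T w = 0) := by
  classical
  refine ⟨Finsupp.onFinset G.finite_inf.toFinset
    (fun w => if Over G.B w then -ord w G.t else 0) ?_, ?_, ?_⟩
  · intro w hw
    rw [Set.Finite.mem_toFinset]
    by_contra h
    exact hw (if_neg h)
  · intro w hw
    rw [Finsupp.onFinset_apply, if_pos hw]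
  · intro w hw
    rw [Finsupp.onFinset_apply, if_neg hw]

private theorem riem_degOver_zero (R : Subalgebra k K) : degOver R 0 = 0 := by
  unfold degOver
  exact Finsupp.sum_zero_index

private theorem riem_RRS_zero : RRS G.B 0 = G.M 0 := by
  have := G.dedB
  have := G.fracB
  rw [RR_zero G.B]
  ext x
  rw [G.mem_M_zero]
  rfl

private theorem riem_RRS_T {T : Place k K →₀ ℤ} (hT : ∀ w, Over G.B w → T w = -ord w G.t) :
    RRS G.B T = G.M (-1) := by
  ext x
  have h4 : x ∈ RRS G.B T ↔ ∀ w : Place k K, Over G.B w → x = 0 ∨ T w ≤ ord w x := Iff.rfl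
  rw [h4]
  by_cases hx : x = 0
  · rw [hx]
    exact ⟨fun _ => (G.M (-1)).zero_mem, fun _ _ _ => Or.inl rfl⟩
  · rw [G.mem_M_iff (-1) hx]
    refine forall_congr' fun w => forall_congr' fun hw => ?_
    rw [hT w hw, neg_one_mul]
    constructor
    · rintro (h | h)
      · exact absurd h hx
      · exact h
    · exact fun h => Or.inr h

/-- The divisor of the poles of `t`. -/
theorem Geo.exists_tDiv : ∃ T : Place k K →₀ ℤ, (∀ w, Over G.B w → T w = -ord w G.t) ∧
    (∀ w, Over G.A w → T w = 0) ∧ degD T = G.d := by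
  classical
  have := G.dedB
  have := G.fracB
  obtain ⟨T, hT, hT'⟩ := riem_tDiv G
  refine ⟨T, hT, fun w hw => hT' w fun h => G.not_both w hw h, ?_⟩
  have h1 : degD T = degOver G.B T := by
    unfold degD degOver
    refine Finsupp.sum_congr fun w hw => ?_
    rw [if_pos]
    by_contra h
    exact (Finsupp.mem_support_iff.1 hw) (hT' w h)
  have h2 : ∀ w, Over G.B w → (0 : Place k K →₀ ℤ) w ≤ T w := fun w hw => by
    rw [hT w hw, Finsupp.zero_apply]
    have := G.ord_t_neg hw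
    omega
  have h3 := (rel G.B G.fin_quotB h2).2
  rw [riem_degOver_zero, sub_zero] at h3
  rw [h1, ← h3, riem_RRS_T G hT, riem_RRS_zero G]
  have h4 := G.finrank_M (by norm_num : (-1 : ℤ) ≤ 0)
  have h5 : (G.d : ℤ) * (0 - -1) = G.d := by ring
  rw [h5] at h4
  exact h4

private theorem riem_step (R : Subalgebra k K) [IsDedekindDomain R] [IsFractionRing R K]
    (hfin : ∀ I : Ideal R, I ≠ ⊥ → Module.Finite k (R ⧸ I)) (D : Place k K →₀ ℤ)
    {M : Submodule k K} (hM : ChiFin (RRS R 0) M) :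
    ChiFin (RRS R D) M ∧ chi (RRS R D) M = chi (RRS R 0) M - degOver R D := by
  have hE1 : ∀ w, Over R w → (D ⊓ 0) w ≤ D w := fun w _ => by
    rw [Finsupp.inf_apply]
    exact inf_le_left
  have hE2 : ∀ w, Over R w → (D ⊓ 0) w ≤ (0 : Place k K →₀ ℤ) w := fun w _ => by
    rw [Finsupp.inf_apply]
    exact inf_le_right
  obtain ⟨a1, a2⟩ := rel R hfin hE1
  obtain ⟨b1, b2⟩ := rel R hfin hE2
  obtain ⟨c1, c2⟩ := chi_left (M := M) (RR_anti R hE1) a1
  obtain ⟨d1, d2⟩ := chi_left (M := M) (RR_anti R hE2) b1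
  have e1 := d1.1 hM
  have e2 := c1.2 e1
  refine ⟨e2, ?_⟩
  have f1 := d2 hM
  have f2 := c2 e2
  rw [a2] at f2
  rw [b2, riem_degOver_zero] at f1
  linarith

private theorem riem_deg (D : Place k K →₀ ℤ) :
    degOver G.A D + degOver G.B D = degD D := by
  classical
  unfold degOver degD
  rw [← Finsupp.sum_add]
  refine Finsupp.sum_congr fun w _ => ?_
  rcases G.places w with h | h
  · have hA : Over G.A w := h
    rw [if_pos hA, if_neg fun hB => G.not_both w hA hB, add_zero]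
  · have hB : Over G.B w := h
    rw [if_pos hB, if_neg fun hA => G.not_both w hA hB, zero_add]

include G in
/-- The inequality of Riemann. -/
theorem Geo.riemann : ∃ C : ℤ, ∀ D : Place k K →₀ ℤ, C < -degD D →
    ∃ u : K, u ≠ 0 ∧ ∀ w : Place k K, D w ≤ ord w u := by
  have := G.dedB
  have := G.fracB
  refine ⟨-chi (RRS G.A 0) (RRS G.B 0), fun D hD => ?_⟩
  have h0 : ChiFin (RRS G.A 0) (RRS G.B 0) := by
    rw [RR_zero G.A, RR_zero G.B]
    exact ⟨G.fin_inf, G.fin_sup⟩
  obtain ⟨h1, h2⟩ := riem_step G.A G.fin_quotI D h0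
  obtain ⟨h3, h4⟩ := riem_step G.B G.fin_quotB D (chiFin_comm.1 h1)
  rw [chi_comm (RRS G.B 0), h2] at h4
  have h5 := riem_deg G D
  have h6 := chi_le (RRS G.B D) (RRS G.A D)
  have h7 : 0 < Module.finrank k (RRS G.B D ⊓ RRS G.A D : Submodule k K) := by
    have : (0 : ℤ) < Module.finrank k (RRS G.B D ⊓ RRS G.A D : Submodule k K) := by linarith
    exact_mod_cast this
  have h8 : (RRS G.B D ⊓ RRS G.A D : Submodule k K) ≠ ⊥ := by
    intro h
    rw [h, finrank_bot] at h7
    exact lt_irrefl _ h7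
  obtain ⟨u, hu, hu0⟩ := Submodule.exists_mem_ne_zero_of_ne_bot h8
  refine ⟨u, hu0, fun w => ?_⟩
  rcases G.places w with h | h
  · rcases hu.2 w h with h9 | h9
    · exact absurd h9 hu0
    · exact h9
  · rcases hu.1 w h with h9 | h9
    · exact absurd h9 hu0
    · exact h9

end Pool.Agent.GBC
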