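import Pool.Agent.Lib.GBC.P.Dense
import Pool.Agent.Lib.HYP.F.UnrC

/-!
Module P.Unr of GBC. If `f ∈ R[x]` is irreducible modulo the centre of `w` then an element of square
norm of `K_w[x] / (f)` is a square.

PROOF. `h := f` with coefficients in `L.O` (`x ↦ w.toCompletion x`, `L.mem_iff`): monic of odd degree,
`h.map residue` corresponds to `f.map (toRes R w hw)` under the isomorphism `ψ` of `res_iso`, and
`toRes` induces an isomorphism of `R / cen` with the residue field (`toRes_surjective`, kernel `cen`:
`RingHom.quotientKerEquivOfSurjective`). So `h.map residue` is irreducible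
(`Polynomial.mapEquiv`, `MulEquiv.irreducible_iff`). Then `isSquare_of_norm_odd` (`HYP/F/UnrC.lean`)
(with `subst`/generalisation for `h.map _ = (f.map _).map _`).
-/

set_option autoImplicit false

open Polynomial

namespace Pool.Agent.GBC

open Pool.Agent.BSDP Pool.Agent.BSDFF Pool.Agent.HYP

variable {k K : Type} [Field k] [Field K] [Algebra k K] (R : Subalgebra k K)
  [IsDedekindDomain R] [IsFractionRing R K]

private theorem Unr_irr {A B : Type} [CommRing A] [CommRing B] (I : Ideal A) (χ : A →+* B)
    (hs : Function.Surjective χ) (hk : ∀ a, χ a = 0 ↔ a ∈ I) {f : A[X]}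
    (hi : Irreducible (f.map (Ideal.Quotient.mk I))) : Irreducible (f.map χ) := by
  have h0 : ∀ a ∈ I, χ a = 0 := fun a ha => (hk a).2 ha
  have hb : Function.Bijective (Ideal.Quotient.lift I χ h0) := by
    constructor
    · rw [injective_iff_map_eq_zero]
      intro x
      obtain ⟨a, rfl⟩ := Ideal.Quotient.mk_surjective x
      intro hx
      rw [Ideal.Quotient.lift_mk] at hx
      exact Ideal.Quotient.eq_zero_iff_mem.2 ((hk a).1 hx)
    · exact Ideal.Quotient.lift_surjective_of_surjective I h0 hs
  have h1 : f.map χ = Polynomial.mapEquiv (RingEquiv.ofBijective _ hb)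
      (f.map (Ideal.Quotient.mk I)) := by
    ext n
    rw [Polynomial.mapEquiv_apply, Polynomial.coeff_map, Polynomial.coeff_map,
      Polynomial.coeff_map]
    rfl
  rw [h1]
  exact (MulEquiv.irreducible_iff _).2 hi

theorem isSquare_of_irr {w : Place k K} (hw : Over R w) (L : LocK w) (hC : Complete L.toLoc)
    {f : R[X]} (hf : f.Monic) (hodd : Odd f.natDegree)
    (hi : Irreducible (f.map (Ideal.Quotient.mk (cen R w hw))))
    (c : AdjoinRoot ((f.map (algebraMap R K)).map w.toCompletion)) (hc : SqNorm c) :
    IsSquare c := by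
  obtain ⟨h, h1, h2, h3, h4⟩ : ∃ h : L.O[X], h.Monic ∧
      h.map (algebraMap L.O w.ring.valuation.Completion) =
        (f.map (algebraMap R K)).map w.toCompletion ∧
      Irreducible (h.map (IsLocalRing.residue L.O)) ∧ Odd h.natDegree := by
    obtain ⟨ψ, hψ, hψ2⟩ := res_iso L
    have hmem : ∀ a : R, (w.toCompletion.comp (algebraMap R K)) a ∈ L.O.toSubring :=
      fun a => (L.mem_iff _).2 (hw a a.2)
    let θ : R →+* L.O := (w.toCompletion.comp (algebraMap R K)).codRestrict L.O.toSubring hmem
    have hθ : (IsLocalRing.residue L.O).comp θ = ψ.comp (toRes R w hw) := by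
      ext a
      exact (hψ2 (a : K) (hw a a.2)).symm
    refine ⟨f.map θ, hf.map _, ?_, ?_, ?_⟩
    · rw [Polynomial.map_map, Polynomial.map_map]
      rfl
    · rw [Polynomial.map_map, hθ]
      refine Unr_irr (cen R w hw) _ ?_ ?_ hi
      · rw [RingHom.coe_comp]
        exact hψ.2.comp (toRes_surjective R hw)
      · intro a
        rw [RingHom.comp_apply, map_eq_zero_iff ψ hψ.1]
        exact Iff.rfl
    · rw [hf.natDegree_map]
      exact hodd
  revert c
  rw [← h2]
  intro c hc
  exact isSquare_of_norm_odd L.toLoc hC h1 h3 h4 c hc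

end Pool.Agent.GBC
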